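import Pool.Agent.H328Z.Soc.Defs

open MvPolynomial

namespace Pool.Agent.H328Z.Soc

variable {F : Type*} [Field F] {n : ℕ}

noncomputable def lin (v : Fin n → F) : MvPolynomial (Fin n) F := ∑ i, v i • X i

lemma symAct_X (M : Matrix (Fin n) (Fin n) F) (j : Fin n) :
    symAct M (X j) = lin (fun i => M i j) := by
  simp [symAct, lin]

lemma symAct_C (M : Matrix (Fin n) (Fin n) F) (a : F) : symAct M (C a) = C a := by
  simp [symAct]

lemma lin_isHomogeneous (v : Fin n → F) : (lin v).IsHomogeneous 1 :=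
  IsHomogeneous.sum _ _ _ fun i _ =>
    (homogeneousSubmodule (Fin n) F 1).smul_mem _ (isHomogeneous_X F i)

lemma eval_lin (x v : Fin n → F) : eval x (lin v) = ∑ i, v i * x i := by
  simp [lin, map_sum]

noncomputable def symEquiv (g : GL (Fin n) F) :
    MvPolynomial (Fin n) F ≃ₐ[F] MvPolynomial (Fin n) F :=
  AlgEquiv.ofAlgHom (symAct (g : Matrix (Fin n) (Fin n) F))
    (symAct ((g⁻¹ : GL (Fin n) F) : Matrix (Fin n) (Fin n) F))
    (by rw [← symAct_mul, ← Units.val_mul, mul_inv_cancel, Units.val_one, symAct_one])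
    (by rw [← symAct_mul, ← Units.val_mul, inv_mul_cancel, Units.val_one, symAct_one])

lemma symEquiv_apply (g : GL (Fin n) F) (p : MvPolynomial (Fin n) F) :
    symEquiv g p = symAct (g : Matrix (Fin n) (Fin n) F) p := rfl

lemma gl_det_ne_zero (g : GL (Fin n) F) : (g : Matrix (Fin n) (Fin n) F).det ≠ 0 :=
  ((Matrix.isUnit_iff_isUnit_det _).1 g.isUnit).ne_zero

lemma isUnit_C_of_ne {a : F} (h : a ≠ 0) : IsUnit (C a : MvPolynomial (Fin n) F) :=
  (Ne.isUnit h).map C

lemma exists_smul_of_lin_dvd {v w : Fin n → F} (hv : v ≠ 0) (h : lin v ∣ lin w) :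
    ∃ a : F, w = a • v := by
  classical
  obtain ⟨i, hi⟩ := Function.ne_iff.1 hv
  obtain ⟨d, hd⟩ := h
  refine ⟨w i / v i, funext fun j => ?_⟩
  have h1 := congrArg (eval (Pi.single j (v i) - Pi.single i (v j) : Fin n → F)) hd
  rw [map_mul, eval_lin, eval_lin] at h1
  simp only [Pi.sub_apply, mul_sub, Finset.sum_sub_distrib, Pi.single_apply, mul_ite, mul_zero,
    Finset.sum_ite_eq', Finset.mem_univ, if_true] at h1
  have hi' : v i ≠ 0 := hi
  rw [mul_comm (v j) (v i), sub_self, zero_mul] at h1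
  simp only [Pi.smul_apply, smul_eq_mul]
  field_simp
  linear_combination h1

/-- semi-invariants of weight `det ^ j` -/
def SI (j : ℕ) (c : MvPolynomial (Fin n) F) : Prop :=
  ∀ g : GL (Fin n) F, symAct (g : Matrix (Fin n) (Fin n) F) c =
    C ((g : Matrix (Fin n) (Fin n) F).det ^ j) * c

section NZ

variable [NeZero n]

lemma exists_gl {v : Fin n → F} (hv : v ≠ 0) :
    ∃ g : GL (Fin n) F, symAct (g : Matrix (Fin n) (Fin n) F) (X 0) = lin v := by
  obtain ⟨i, hi⟩ := Function.ne_iff.1 hv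
  let M : Matrix (Fin n) (Fin n) F :=
    ((1 : Matrix (Fin n) (Fin n) F).updateCol i v).submatrix id (Equiv.swap 0 i)
  have hM : M.det ≠ 0 := by
    simp only [M]
    rw [Matrix.det_permute', ← Matrix.cramer_apply, Matrix.cramer_one]
    refine mul_ne_zero ?_ hi
    rcases Int.units_eq_one_or (Equiv.Perm.sign (Equiv.swap 0 i)) with h | h <;> simp [h]
  refine ⟨Matrix.GeneralLinearGroup.mkOfDetNeZero M hM, ?_⟩
  rw [symAct_X]
  congr 1
  funext l
  simp [M, Matrix.GeneralLinearGroup.mkOfDetNeZero]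

lemma lin_prime {v : Fin n → F} (hv : v ≠ 0) : Prime (lin v) := by
  obtain ⟨g, hg⟩ := exists_gl hv
  rw [← hg, ← symEquiv_apply]
  exact (MulEquiv.prime_iff (symEquiv g)).2 X_prime

lemma lin_dvd {j : ℕ} {c : MvPolynomial (Fin n) F} (hc : SI j c) (h0 : X 0 ∣ c)
    {v : Fin n → F} (hv : v ≠ 0) : lin v ∣ c := by
  obtain ⟨g, hg⟩ := exists_gl hv
  have h1 := map_dvd (symAct (g : Matrix (Fin n) (Fin n) F)) h0
  rw [hg, hc g] at h1
  exact (isUnit_C_of_ne (pow_ne_zero _ (gl_det_ne_zero g))).dvd_mul_left.1 h1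

lemma X_dvd_diag (l : F) (p : MvPolynomial (Fin n) F) :
    X 0 ∣ symAct (Matrix.diagonal (Function.update 1 0 l)) p - p := by
  induction p using MvPolynomial.induction_on with
  | C a => simp
  | add p r hp hr =>
    rw [map_add, add_sub_add_comm]
    exact dvd_add hp hr
  | mul_X p i hp =>
    have h1 : X 0 ∣ symAct (Matrix.diagonal (Function.update 1 0 l)) (X i) -
        (X i : MvPolynomial (Fin n) F) := by
      rw [symAct_X, lin, Finset.sum_eq_single i]
      · by_cases h : i = 0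
        · subst h
          exact dvd_sub (by rw [smul_eq_C_mul]; exact Dvd.intro_left _ rfl) dvd_rfl
        · simp [Function.update_of_ne h]
      · intro b _ hb
        simp [Matrix.diagonal_apply_ne _ hb]
      · simp
    rw [map_mul]
    have : ∀ a b c d : MvPolynomial (Fin n) F, a * b - c * d = (a - c) * b + c * (b - d) := by
      intros; ring
    rw [this]
    exact dvd_add (hp.mul_right _) (h1.mul_left _)

end NZ

variable [Fintype F]

noncomputable def Phi (F : Type*) [Field F] [Fintype F] (n : ℕ) :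
    Matrix (Fin n) (Fin n) (MvPolynomial (Fin n) F) :=
  Matrix.of fun i j => X j ^ Fintype.card F ^ (i : ℕ)

noncomputable def LL (F : Type*) [Field F] [Fintype F] (n : ℕ) : MvPolynomial (Fin n) F :=
  (Phi F n).det

lemma frob_sum {A : Type*} [CommRing A] [Algebra F A] (e : ℕ) (v : Fin n → F) (y : Fin n → A) :
    (∑ i, v i • y i) ^ Fintype.card F ^ e = ∑ i, v i • y i ^ Fintype.card F ^ e := by
  have h : ∀ a : A, (FiniteField.frobeniusAlgHom F A ^ e) a = a ^ Fintype.card F ^ e := by
    intro a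
    rw [AlgHom.coe_pow, FiniteField.coe_frobeniusAlgHom, pow_iterate]
  simp only [← h, map_sum, map_smul]

lemma act_X_pow (M : Matrix (Fin n) (Fin n) F) (e : ℕ) (j : Fin n) :
    symAct M (X j ^ Fintype.card F ^ e) = ∑ i, X i ^ Fintype.card F ^ e * C (M i j) := by
  rw [map_pow, symAct_X, lin, frob_sum]
  simp only [smul_eq_C_mul, mul_comm]

lemma act_Phi (M : Matrix (Fin n) (Fin n) F) :
    (Phi F n).map (symAct M) = Phi F n * M.map C := by
  ext i j : 2
  simp only [Phi, Matrix.map_apply, Matrix.of_apply, Matrix.mul_apply, act_X_pow]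

omit [Fintype F] in
lemma det_map_C (M : Matrix (Fin n) (Fin n) F) :
    (M.map (C : F →+* MvPolynomial (Fin n) F)).det = C M.det :=
  (RingHom.map_det (C : F →+* MvPolynomial (Fin n) F) M).symm

lemma SI_LL : SI 1 (LL F n) := by
  intro g
  unfold LL
  rw [AlgHom.map_det, AlgHom.mapMatrix_apply, act_Phi, Matrix.det_mul, det_map_C, pow_one,
    mul_comm]

lemma two_le_q : 2 ≤ Fintype.card F := Fintype.one_lt_card

lemma LL_ne_zero : LL F n ≠ 0 := by
  classical
  have hm : ∀ σ : Equiv.Perm (Fin n), ∏ i, Phi F n (σ i) i =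
      monomial (Finsupp.equivFunOnFinite.symm fun i => Fintype.card F ^ (σ i : ℕ)) (1 : F) := by
    intro σ
    rw [monomial_eq, Finsupp.prod_fintype _ _ (by simp)]
    simp [Phi]
  intro h
  have h1 := congrArg
    (coeff (Finsupp.equivFunOnFinite.symm fun i : Fin n => Fintype.card F ^ (i : ℕ))) h
  rw [LL, Matrix.det_apply, coeff_sum, Finset.sum_eq_single 1] at h1
  · rw [hm] at h1
    simp at h1
  · intro σ _ hσ
    rw [hm, coeff_smul, coeff_monomial, if_neg, smul_zero]
    intro h2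
    apply hσ
    ext i
    have h3 := congrFun (Finsupp.equivFunOnFinite.symm.injective h2) i
    exact Nat.pow_right_injective two_le_q h3
  · simp

/-- degree of the Moore determinant -/
def dl (F : Type*) [Fintype F] (n : ℕ) : ℕ := ∑ i : Fin n, Fintype.card F ^ (i : ℕ)

lemma LL_isHomogeneous : (LL F n).IsHomogeneous (dl F n) := by
  unfold LL
  rw [Matrix.det_apply']
  refine IsHomogeneous.sum _ _ _ fun σ _ => ?_
  have h1 : (∏ i, Phi F n (σ i) i).IsHomogeneous (∑ i, Fintype.card F ^ (σ i : ℕ)) :=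
    IsHomogeneous.prod _ _ _ fun i _ => by simpa [Phi] using isHomogeneous_X_pow (R := F) i _
  rw [Equiv.sum_comp σ (fun i => Fintype.card F ^ (i : ℕ))] at h1
  have h2 : ((Equiv.Perm.sign σ : ℤ) : MvPolynomial (Fin n) F) = C ((Equiv.Perm.sign σ : ℤ) : F) :=
    (map_intCast (C : F →+* MvPolynomial (Fin n) F) _).symm
  rw [h2]
  exact h1.C_mul _

open scoped LinearAlgebra.Projectivization

noncomputable instance : Fintype (ℙ F (Fin n → F)) := Fintype.ofFinite _

noncomputable def PP (F : Type*) [Field F] [Fintype F] (n : ℕ) : MvPolynomial (Fin n) F :=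
  ∏ P : ℙ F (Fin n → F), lin P.rep

lemma PP_isHomogeneous : (PP F n).IsHomogeneous (dl F n) := by
  have h1 : (PP F n).IsHomogeneous (∑ _P : ℙ F (Fin n → F), 1) :=
    IsHomogeneous.prod _ _ _ fun P _ => lin_isHomogeneous _
  have h2 : (∑ _P : ℙ F (Fin n → F), 1) = dl F n := by
    rw [Finset.sum_const, Finset.card_univ, smul_eq_mul, mul_one, ← Nat.card_eq_fintype_card,
      Projectivization.card_of_finrank F (Fin n → F) (n := n) (by simp), dl,
      Nat.card_eq_fintype_card, Finset.sum_range]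
  rwa [h2] at h1

variable [NeZero n]

omit [Fintype F] in
lemma rel_prime_rep : Pairwise (Function.onFun IsRelPrime fun P : ℙ F (Fin n → F) => lin P.rep) := by
  intro P Q hPQ
  refine ((lin_prime P.rep_nonzero).irreducible.isRelPrime_iff_not_dvd).2 fun h => hPQ ?_
  obtain ⟨a, ha⟩ := exists_smul_of_lin_dvd P.rep_nonzero h
  rw [← P.mk_rep, ← Q.mk_rep, eq_comm, Projectivization.mk_eq_mk_iff']
  exact ⟨a, ha.symm⟩

lemma PP_dvd {c : MvPolynomial (Fin n) F} (h : ∀ v : Fin n → F, v ≠ 0 → lin v ∣ c) :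
    PP F n ∣ c :=
  Fintype.prod_dvd_of_isRelPrime rel_prime_rep fun P => h _ P.rep_nonzero

lemma PP_squarefree : Squarefree (PP F n) :=
  Finset.squarefree_prod_of_pairwise_isCoprime (fun _ _ _ _ h => rel_prime_rep h)
    fun P _ => (lin_prime P.rep_nonzero).squarefree

noncomputable def Phi' (F : Type*) [Field F] [Fintype F] (n : ℕ) [NeZero n] :
    Matrix (Fin n) (Fin n) (MvPolynomial (Fin n) F) :=
  Matrix.of fun i j => if j = 0 then X j ^ (Fintype.card F ^ (i : ℕ) - 1)
    else X j ^ Fintype.card F ^ (i : ℕ)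

lemma Phi_eq : Phi F n = Phi' F n * Matrix.diagonal (Function.update 1 0 (X 0)) := by
  ext i j : 2
  rw [Matrix.mul_diagonal]
  by_cases h : j = 0
  · subst h
    simp only [Phi, Phi', Matrix.of_apply, if_true, Function.update_self]
    rw [← pow_succ, Nat.sub_add_cancel (Nat.one_le_pow _ _ Fintype.card_pos)]
  · simp [Phi, Phi', h]

lemma X_dvd_LL : X 0 ∣ LL F n := by
  rw [LL, Phi_eq, Matrix.det_mul, Matrix.det_diagonal]
  refine Dvd.dvd.mul_left ?_ _
  have := Finset.dvd_prod_of_mem (Function.update (1 : Fin n → MvPolynomial (Fin n) F) 0 (X 0))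
    (Finset.mem_univ 0)
  simpa using this

lemma LL_assoc : Associated (PP F n) (LL F n) := by
  obtain ⟨d, hd⟩ : PP F n ∣ LL F n := PP_dvd fun v hv => lin_dvd SI_LL X_dvd_LL hv
  have h0 := LL_ne_zero (F := F) (n := n)
  have hP : PP F n ≠ 0 := fun h => h0 (by rw [hd, h, zero_mul])
  have hd0 : d ≠ 0 := fun h => h0 (by rw [hd, h, mul_zero])
  have h1 := totalDegree_mul_of_isDomain hP hd0
  rw [← hd, LL_isHomogeneous.totalDegree h0, PP_isHomogeneous.totalDegree hP] at h1
  have h2 : d.totalDegree = 0 := by omega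
  rw [totalDegree_eq_zero_iff_eq_C] at h2
  have h3 : IsUnit d := by
    rw [h2]
    exact isUnit_C_of_ne fun h => hd0 (by rw [h2, h, map_zero])
  exact ⟨h3.unit, hd.symm⟩

lemma X_dvd_of_SI {j : ℕ} {c : MvPolynomial (Fin n) F} (hc : SI j c) (h1 : 1 ≤ j)
    (h2 : j + 2 ≤ Fintype.card F) : X 0 ∣ c := by
  classical
  have h3 : ¬ ∀ x : Fˣ, x ^ j = 1 := by
    rw [FiniteField.forall_pow_eq_one_iff]
    intro h
    have := Nat.le_of_dvd h1 h
    omega
  push Not at h3
  obtain ⟨l, hl⟩ := h3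
  have hdet : (Matrix.diagonal (Function.update (1 : Fin n → F) 0 (l : F))).det = l := by
    rw [Matrix.det_diagonal, Finset.prod_update_of_mem (Finset.mem_univ _)]
    simp
  have h4 := hc (Matrix.GeneralLinearGroup.mkOfDetNeZero _ (hdet ▸ l.ne_zero))
  have h5 := X_dvd_diag (l : F) c
  change symAct (Matrix.diagonal (Function.update (1 : Fin n → F) 0 (l : F))) c =
    C ((Matrix.diagonal (Function.update (1 : Fin n → F) 0 (l : F))).det ^ j) * c at h4
  rw [h4, hdet, ← sub_one_mul, ← C_1, ← map_sub] at h5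
  refine (isUnit_C_of_ne (sub_ne_zero.2 fun h => hl ?_)).dvd_mul_left.1 h5
  exact Units.ext (by simpa using h)

theorem key_div (j : ℕ) : ∀ (e : ℕ) (c : MvPolynomial (Fin n) F), SI j c → X 0 ^ e ∣ c →
    j + 2 ≤ e + Fintype.card F → ∃ a, SI 0 a ∧ c = LL F n ^ j * a := by
  induction j with
  | zero => intro e c h _ _; exact ⟨c, h, by simp⟩
  | succ j ih =>
    intro e c hc he hj
    have h0 : X 0 ∣ c := by
      rcases Nat.eq_zero_or_pos e with h | h
      · exact X_dvd_of_SI hc (by omega) (by omega)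
      · exact (dvd_pow_self _ h.ne').trans he
    obtain ⟨c', rfl⟩ : LL F n ∣ c :=
      LL_assoc.dvd_iff_dvd_left.1 (PP_dvd fun v hv => lin_dvd hc h0 hv)
    have hc' : SI j c' := by
      intro g
      have h1 := hc g
      rw [map_mul, SI_LL g, pow_one] at h1
      have h2 : C (g : Matrix (Fin n) (Fin n) F).det * LL F n ≠ 0 :=
        mul_ne_zero (isUnit_C_of_ne (gl_det_ne_zero g)).ne_zero LL_ne_zero
      apply mul_left_cancel₀ h2
      rw [h1, pow_succ, map_mul]
      ring
    have he' : X 0 ^ (e - 1) ∣ c' := by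
      rcases Nat.eq_zero_or_pos e with h | h
      · simp [h]
      · obtain ⟨L', hL'⟩ := X_dvd_LL (F := F) (n := n)
        have hsq : Squarefree (LL F n) := LL_assoc.squarefree_iff.1 PP_squarefree
        have hnd : ¬ X 0 ∣ L' := by
          intro hd
          refine (X_prime (i := (0 : Fin n)) (R := F)).not_isUnit (hsq _ ?_)
          rw [hL']
          exact mul_dvd_mul_left _ hd
        obtain ⟨e', rfl⟩ : ∃ e', e = e' + 1 := ⟨e - 1, by omega⟩
        rw [hL', pow_succ', mul_assoc, mul_dvd_mul_iff_left (X_ne_zero _)] at he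
        exact X_prime.pow_dvd_of_dvd_mul_left _ hnd he
    obtain ⟨a, ha, rfl⟩ := ih (e - 1) c' hc' he' (by omega)
    exact ⟨a, ha, by ring⟩

end Pool.Agent.H328Z.Soc
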