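import Pool.Agent.H328Z.Soc.StrB
import Pool.Agent.H328Z.Soc.Moo

open MvPolynomial Matrix

namespace Pool.Agent.H328Z.Soc

variable {F : Type*} [Field F] [Fintype F] {n : ℕ} {μ : YoungDiagram}

/-- equivariant vectors -/
def Eqv (μ : YoungDiagram) (k : ℕ) (f : Tab μ n → MvPolynomial (Fin n) F) : Prop :=
  ∀ g : GL (Fin n) F, ∀ T, symAct (g : Matrix (Fin n) (Fin n) F) (f T) =
    C ((g : Matrix (Fin n) (Fin n) F).det ^ k) *
      (f ᵥ* rho μ ((g : Matrix (Fin n) (Fin n) F).map C)) T

omit [Fintype F] in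
lemma act_vecMul {I J : Type*} [Fintype I] (M : Matrix (Fin n) (Fin n) F)
    (v : I → MvPolynomial (Fin n) F) (P : Matrix I J (MvPolynomial (Fin n) F)) (j : J) :
    symAct M ((v ᵥ* P) j) = ((fun i => symAct M (v i)) ᵥ* P.map (symAct M)) j :=
  by simp only [vecMul, dotProduct, map_sum, map_mul, Matrix.map_apply]

omit [Fintype F] in
lemma rho_act (M : Matrix (Fin n) (Fin n) F) (P : Matrix (Fin n) (Fin n) (MvPolynomial (Fin n) F)) :
    (rho μ P).map (symAct M) = rho μ (P.map (symAct M)) :=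
  (rho_map (symAct M).toRingHom P).symm

lemma act_adj (M : Matrix (Fin n) (Fin n) F) :
    (adjugate (Phi F n)).map (symAct M) = adjugate (M.map C) * adjugate (Phi F n) := by
  rw [← adjugate_mul_distrib, ← act_Phi]
  exact AlgHom.map_adjugate (symAct M) (Phi F n)

lemma SI_pow (k : ℕ) : SI k (LL F n ^ k) := by
  intro g
  rw [map_pow, SI_LL g, pow_one, mul_pow, map_pow]

theorem eqv_of (k : ℕ) {a : Tab μ n → MvPolynomial (Fin n) F} (ha : ∀ U, SI 0 (a U)) :
    Eqv μ k (LL F n ^ k • (a ᵥ* rho μ (Phi F n))) := by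
  intro g T
  have h1 : (fun U => symAct (g : Matrix (Fin n) (Fin n) F) (a U)) = a := by
    funext U
    simpa using ha U g
  rw [Pi.smul_apply, smul_eq_mul, map_mul, SI_pow k g, act_vecMul, h1, rho_act, act_Phi, rho_mul,
    smul_vecMul, vecMul_vecMul, Pi.smul_apply, smul_eq_mul, mul_assoc]

lemma rho_Phi_adj : rho μ (Phi F n) * rho μ (adjugate (Phi F n)) = LL F n ^ μ.card • 1 := by
  rw [← rho_mul, mul_adjugate, rho_smul_one, LL]

lemma rho_adj_Phi : rho μ (adjugate (Phi F n)) * rho μ (Phi F n) = LL F n ^ μ.card • 1 := by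
  rw [← rho_mul, adjugate_mul, rho_smul_one, LL]

lemma vecMul_rho_inj {a : Tab μ n → MvPolynomial (Fin n) F} (h : a ᵥ* rho μ (Phi F n) = 0) :
    a = 0 := by
  have h1 := congrArg (· ᵥ* rho μ (adjugate (Phi F n))) h
  simp only [vecMul_vecMul, rho_Phi_adj, zero_vecMul, vecMul_smul, vecMul_one] at h1
  exact (smul_eq_zero.1 h1).resolve_left (pow_ne_zero _ LL_ne_zero)

lemma card_zero_le [NeZero n] (U : Tab μ n) :
    (Finset.univ.filter fun c => U.1 c = 0).card ≤ μ.rowLen 0 := by
  have hrow : ∀ c, U.1 c = 0 → c.1.1 = 0 := by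
    intro c hc
    by_contra h
    have hm : (0, c.1.2) ∈ μ.cells :=
      (YoungDiagram.mem_cells _).2 (μ.up_left_mem (Nat.zero_le _) le_rfl (cell_mem c))
    have := U.2.2 ⟨_, hm⟩ c rfl (Nat.pos_of_ne_zero h)
    rw [hc] at this
    exact absurd this (Fin.not_lt_zero _)
  rw [← Finset.card_range (μ.rowLen 0)]
  refine Finset.card_le_card_of_injOn (fun c => c.1.2) (fun c hc => ?_) fun c hc d hd h => ?_
  · have h0 := hrow c (by simpa using hc)
    have := cell_mem c
    rw [h0] at this
    simpa using YoungDiagram.mem_iff_lt_rowLen.1 this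
  · exact Subtype.ext (Prod.ext ((hrow c (by simpa using hc)).trans
      (hrow d (by simpa using hd)).symm) h)

omit [Fintype F] in
lemma adj_diag [NeZero n] :
    adjugate (diagonal (Function.update (1 : Fin n → MvPolynomial (Fin n) F) 0 (X 0))) =
    diagonal fun i => if i = 0 then 1 else X 0 := by
  rw [adjugate_diagonal]
  congr 1
  funext i
  split_ifs with h
  · subst h
    exact Finset.prod_eq_one fun j hj => by
      rw [Function.update_of_ne (Finset.mem_erase.1 hj).1]; rfl
  · rw [Finset.prod_update_of_mem (Finset.mem_erase.2 ⟨Ne.symm h, Finset.mem_univ _⟩)]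
    simp

lemma adj_Phi [NeZero n] : adjugate (Phi F n) =
    (diagonal fun i => if i = 0 then 1 else X 0) * adjugate (Phi' F n) := by
  rw [Phi_eq, adjugate_mul_distrib, adj_diag]

theorem exists_of_eqv [NeZero n] {k : ℕ} (hk : k + μ.rowLen 0 + 2 ≤ Fintype.card F)
    {f : Tab μ n → MvPolynomial (Fin n) F} (hf : Eqv μ k f) :
    ∃ a : Tab μ n → MvPolynomial (Fin n) F, (∀ U, SI 0 (a U)) ∧
      f = LL F n ^ k • (a ᵥ* rho μ (Phi F n)) := by
  set c := f ᵥ* rho μ (adjugate (Phi F n)) with hc
  have h1 : ∀ U, SI (k + μ.card) (c U) := by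
    intro U g
    have e1 : (fun T => symAct (g : Matrix (Fin n) (Fin n) F) (f T)) =
        (C ((g : Matrix (Fin n) (Fin n) F).det ^ k) : MvPolynomial (Fin n) F) •
          (f ᵥ* rho μ ((g : Matrix (Fin n) (Fin n) F).map C)) := by
      funext T
      rw [hf g T, Pi.smul_apply, smul_eq_mul]
    rw [hc, act_vecMul, e1, rho_act, act_adj, smul_vecMul, vecMul_vecMul, ← rho_mul,
      ← Matrix.mul_assoc, mul_adjugate, rho_mul, rho_smul_one, det_map_C, Matrix.smul_mul,
      Matrix.one_mul, vecMul_smul, smul_smul, Pi.smul_apply, smul_eq_mul, pow_add, map_mul,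
      map_pow, map_pow C]
  have h2 : ∀ U, X 0 ^ (μ.card - μ.rowLen 0) ∣ c U := by
    intro U
    rw [hc, adj_Phi, rho_mul, ← vecMul_vecMul, rho_diagonal, vecMul, dotProduct]
    refine Finset.dvd_sum fun T _ => Dvd.dvd.mul_right ?_ _
    rw [vecMul_diagonal]
    refine Dvd.dvd.mul_left ?_ _
    rw [Finset.prod_ite, Finset.prod_const_one, one_mul, Finset.prod_const]
    apply pow_dvd_pow
    have e1 := Finset.card_filter_add_card_filter_not (s := Finset.univ) (fun c => T.1 c = 0)
    have e2 := card_zero_le T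
    have e3 : (Finset.univ : Finset μ.cells).card = μ.card := by simp [YoungDiagram.card]
    omega
  choose a ha ha' using fun U => key_div _ _ _ (h1 U) (h2 U) (by omega)
  refine ⟨a, ha, ?_⟩
  have h3 : c = LL F n ^ (k + μ.card) • a := funext ha'
  have h4 : c ᵥ* rho μ (Phi F n) = LL F n ^ μ.card • f := by
    rw [hc, vecMul_vecMul, rho_adj_Phi, vecMul_smul, vecMul_one]
  rw [h3, smul_vecMul, pow_add, mul_comm, ← smul_smul] at h4
  exact (smul_right_injective _ (pow_ne_zero _ LL_ne_zero) h4).symm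

/-- weight of a tableau -/
def wt (F : Type*) [Fintype F] (U : μ.cells → Fin n) : ℕ := ∑ c, Fintype.card F ^ (U c : ℕ)

lemma rho_Phi_hom (U T : Tab μ n) : (rho μ (Phi F n) U T).IsHomogeneous (wt F U.1) := by
  refine IsHomogeneous.sum _ _ _ fun W _ => ?_
  by_cases h : sc U W = 0
  · simp [h, isHomogeneous_zero]
  · obtain ⟨π, hπ⟩ := sc_ne_zero h
    have h1 : (∏ c, Phi F n (W c) (T.1 c)).IsHomogeneous (∑ c, Fintype.card F ^ (W c : ℕ)) :=
      IsHomogeneous.prod _ _ _ fun c _ => by
        simpa [Phi] using isHomogeneous_X_pow (R := F) (T.1 c) _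
    have h2 : wt F U.1 = ∑ c, Fintype.card F ^ (W c : ℕ) := by
      rw [wt, hπ]
      exact Equiv.sum_comp π (fun c => Fintype.card F ^ (W c : ℕ))
    rw [h2, ← map_intCast (C : F →+* MvPolynomial (Fin n) F)]
    exact h1.C_mul _

/-! Dickson invariants -/

lemma exists_dickson [NeZero n] : ∃ c : Fin n → MvPolynomial (Fin n) F, (∀ i, SI 0 (c i)) ∧
    c ᵥ* Phi F n = fun j => X j ^ Fintype.card F ^ n := by
  set ψ : Fin n → MvPolynomial (Fin n) F := fun j => X j ^ Fintype.card F ^ n with hψ
  set c := ψ ᵥ* adjugate (Phi F n) with hc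
  have h1 : ∀ i, SI 1 (c i) := by
    intro i g
    have e1 : (fun j => symAct (g : Matrix (Fin n) (Fin n) F) (ψ j)) =
        ψ ᵥ* (g : Matrix (Fin n) (Fin n) F).map C := by
      funext j
      simp only [hψ, act_X_pow, vecMul, dotProduct, Matrix.map_apply]
    rw [hc, act_vecMul, e1, act_adj, vecMul_vecMul, ← Matrix.mul_assoc, mul_adjugate, det_map_C,
      Matrix.smul_mul, Matrix.one_mul, vecMul_smul, Pi.smul_apply, smul_eq_mul, pow_one]
  have h2 : ∀ i, X 0 ^ 1 ∣ c i := by
    intro i
    rw [hc, adj_Phi, ← vecMul_vecMul, vecMul, dotProduct, pow_one]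
    refine Finset.dvd_sum fun j _ => Dvd.dvd.mul_right ?_ _
    rw [vecMul_diagonal]
    split_ifs with h
    · subst h
      exact (dvd_pow_self _ (pow_ne_zero _ Fintype.card_ne_zero)).mul_right _
    · exact Dvd.intro_left _ rfl
  have hq := two_le_q (F := F)
  choose a ha ha' using fun i => key_div _ _ _ (h1 i) (h2 i) (by omega)
  refine ⟨a, ha, ?_⟩
  have h3 : c = LL F n • a := funext fun i => by simpa using ha' i
  have h4 : c ᵥ* Phi F n = LL F n • ψ := by
    rw [hc, vecMul_vecMul, adjugate_mul, vecMul_smul, vecMul_one, LL]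
  rw [h3, smul_vecMul] at h4
  exact smul_right_injective _ LL_ne_zero h4

omit [Fintype F] in
lemma homogeneousComponent_mul_right {m e : ℕ} (a : MvPolynomial (Fin n) F)
    {h : MvPolynomial (Fin n) F} (hh : h.IsHomogeneous e) :
    homogeneousComponent (m + e) (a * h) = homogeneousComponent m a * h := by
  conv_lhs => rw [← sum_homogeneousComponent a, Finset.sum_mul, map_sum]
  have h1 : ∀ i, homogeneousComponent (m + e) (homogeneousComponent i a * h) =
      if m = i then homogeneousComponent i a * h else 0 := by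
    intro i
    rw [homogeneousComponent_of_mem ((homogeneousComponent_isHomogeneous i a).mul hh)]
    simp
  simp only [h1, Finset.sum_ite_eq]
  split_ifs with h2
  · rfl
  · rw [homogeneousComponent_eq_zero _ _ (by simpa using h2), zero_mul]

variable (F n) in
noncomputable def dk [NeZero n] : Fin n → MvPolynomial (Fin n) F := exists_dickson.choose

lemma dk_SI [NeZero n] (i : Fin n) : SI 0 (dk F n i) := exists_dickson.choose_spec.1 i

lemma dk_vecMul [NeZero n] : dk F n ᵥ* Phi F n = fun j => X j ^ Fintype.card F ^ n :=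
  exists_dickson.choose_spec.2

lemma dk_eq [NeZero n] (j : Fin n) :
    ∑ i, dk F n i * X j ^ Fintype.card F ^ (i : ℕ) = X j ^ Fintype.card F ^ n :=
  congrFun dk_vecMul j

/-- degrees of the Dickson invariants -/
def dw (F : Type*) [Fintype F] (n : ℕ) (i : Fin n) : ℕ :=
  Fintype.card F ^ n - Fintype.card F ^ (i : ℕ)

lemma pow_lt_q (i : Fin n) : Fintype.card F ^ (i : ℕ) < Fintype.card F ^ n :=
  Nat.pow_lt_pow_right two_le_q i.2

lemma dk_hom [NeZero n] (i : Fin n) : (dk F n i).IsHomogeneous (dw F n i) := by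
  set c' : Fin n → MvPolynomial (Fin n) F := fun i => homogeneousComponent (dw F n i) (dk F n i)
  have h1 : c' ᵥ* Phi F n = dk F n ᵥ* Phi F n := by
    rw [dk_vecMul]
    funext j
    have h2 := congrArg (homogeneousComponent (σ := Fin n) (R := F) (Fintype.card F ^ n))
      (dk_eq (F := F) j)
    rw [map_sum, homogeneousComponent_of_mem (isHomogeneous_X_pow j _), if_pos rfl] at h2
    rw [← h2]
    rw [vecMul, dotProduct]
    refine Finset.sum_congr rfl fun i _ => ?_
    have h3 : Fintype.card F ^ n = dw F n i + Fintype.card F ^ (i : ℕ) :=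
      (Nat.sub_add_cancel (pow_lt_q i).le).symm
    rw [h3, homogeneousComponent_mul_right _ (isHomogeneous_X_pow j _)]
    rfl
  have h4 := congrArg (· ᵥ* adjugate (Phi F n)) h1
  simp only [vecMul_vecMul, mul_adjugate, vecMul_smul, vecMul_one] at h4
  have h5 : c' = dk F n := smul_right_injective _ LL_ne_zero h4
  rw [← h5]
  exact homogeneousComponent_isHomogeneous _ _

end Pool.Agent.H328Z.Soc
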