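import Mathlib

open MvPolynomial

namespace Pool.Agent.H328Z.Soc

section Actions

variable {R : Type*} [CommRing R] {n : ℕ}

/-- The algebra endomorphism of `S(V) = R[x_0, …, x_{n-1}]` (`V = R^n`, with `x_j` the `j`-th
standard basis vector) induced by the matrix `M`: `x_j ↦ ∑ i, M i j • x_i`. -/
noncomputable def symAct (M : Matrix (Fin n) (Fin n) R) :
    MvPolynomial (Fin n) R →ₐ[R] MvPolynomial (Fin n) R :=
  aeval fun j => ∑ i, M i j • X i

/-- The algebra endomorphism of `S(V ⊕ V ⊕ ⋯) = ⨂_a S(V)` (copies of `V` indexed by `a : ℕ`, the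
variable `(a, j)` being the `j`-th basis vector of the `a`-th copy) induced by the matrix `M`
acting diagonally. -/
noncomputable def multiAct (M : Matrix (Fin n) (Fin n) R) :
    MvPolynomial (ℕ × Fin n) R →ₐ[R] MvPolynomial (ℕ × Fin n) R :=
  aeval fun a => ∑ i, M i a.2 • X (a.1, i)

lemma symAct_one : symAct (1 : Matrix (Fin n) (Fin n) R) = AlgHom.id R _ := by
  ext j : 1
  simp [symAct, Matrix.one_apply]

lemma symAct_mul (M N : Matrix (Fin n) (Fin n) R) :
    symAct (M * N) = (symAct M).comp (symAct N) := by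
  ext j : 1
  simp only [symAct, aeval_X, AlgHom.comp_apply, map_sum, map_smul, Matrix.mul_apply,
    Finset.sum_smul, Finset.smul_sum, smul_smul]
  rw [Finset.sum_comm]
  simp only [mul_comm]

lemma multiAct_one : multiAct (1 : Matrix (Fin n) (Fin n) R) = AlgHom.id R _ := by
  ext j : 1
  simp [multiAct, Matrix.one_apply]

lemma multiAct_mul (M N : Matrix (Fin n) (Fin n) R) :
    multiAct (M * N) = (multiAct M).comp (multiAct N) := by
  ext j : 1
  simp only [multiAct, aeval_X, AlgHom.comp_apply, map_sum, map_smul, Matrix.mul_apply,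
    Finset.sum_smul, Finset.smul_sum, smul_smul]
  rw [Finset.sum_comm]
  simp only [mul_comm]

lemma symAct_isHomogeneous (M : Matrix (Fin n) (Fin n) R) {m : ℕ} {p : MvPolynomial (Fin n) R}
    (hp : p.IsHomogeneous m) : (symAct M p).IsHomogeneous m := by
  have h := hp.aeval (fun j => ∑ i, M i j • (X i : MvPolynomial (Fin n) R)) (n := 1) (fun j =>
    IsHomogeneous.sum _ _ _ fun i _ =>
      (homogeneousSubmodule (Fin n) R 1).smul_mem _ (isHomogeneous_X R i))
  simpa [symAct] using h

/-- For a Young diagram `μ` and vectors `v c ∈ V = R^n`, one for each cell `c` of `μ`: the image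
of `⨂_c v c ∈ V^{⊗ μ}` under the column antisymmetriser `∑_{σ ∈ C(μ)} sgn(σ) σ` followed by the
multiplication `V^{⊗ μ} → ⨂_a S^{μ_a}(V)` that multiplies the vectors lying in row `a` inside
the `a`-th copy of `S(V)`. A cell is a pair (row, column). -/
noncomputable def schurGen (μ : YoungDiagram) (v : μ.cells → Fin n → R) :
    MvPolynomial (ℕ × Fin n) R :=
  ∑ σ : Equiv.Perm μ.cells with ∀ c, (σ c).1.2 = c.1.2,
    (Equiv.Perm.sign σ : ℤ) • ∏ c : μ.cells, ∑ l, v (σ c) l • X (c.1.1, l)

lemma multiAct_schurGen (M : Matrix (Fin n) (Fin n) R) (μ : YoungDiagram)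
    (v : μ.cells → Fin n → R) :
    multiAct M (schurGen μ v) = schurGen μ (fun c => M.mulVec (v c)) := by
  simp only [schurGen, map_sum, map_zsmul, map_prod, map_smul]
  refine Finset.sum_congr rfl fun σ _ => ?_
  congr 1
  refine Finset.prod_congr rfl fun c _ => ?_
  simp only [multiAct, aeval_X, Matrix.mulVec, dotProduct, Finset.sum_smul, Finset.smul_sum,
    smul_smul]
  rw [Finset.sum_comm]
  simp only [mul_comm]

end Actions

variable (F : Type*) [Field F] (n : ℕ)

/-- The symmetric algebra `S(V)` of the natural module `V = F^n`, as a `GL_n(F)`-module. -/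
noncomputable def symRep : Representation F (GL (Fin n) F) (MvPolynomial (Fin n) F) where
  toFun g := (symAct (g : Matrix (Fin n) (Fin n) F)).toLinearMap
  map_one' := by simp [symAct_one]; rfl
  map_mul' g h := by simp [symAct_mul]; rfl

/-- The symmetric power `S^m(V)`: homogeneous polynomials of degree `m`. -/
noncomputable def symPow (m : ℕ) :
    Representation F (GL (Fin n) F) (homogeneousSubmodule (Fin n) F m) :=
  (symRep F n).subrepresentation (homogeneousSubmodule (Fin n) F m) fun g p hp => by
    rw [Submodule.mem_comap, mem_homogeneousSubmodule]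
    exact symAct_isHomogeneous (g : Matrix (Fin n) (Fin n) F) hp

/-- `⨂_a S(V)` with the diagonal action of `GL_n(F)`. -/
noncomputable def multiRep : Representation F (GL (Fin n) F) (MvPolynomial (ℕ × Fin n) F) where
  toFun g := (multiAct (g : Matrix (Fin n) (Fin n) F)).toLinearMap
  map_one' := by simp [multiAct_one]; rfl
  map_mul' g h := by simp [multiAct_mul]; rfl

/-- The Schur functor of `μ` applied to `V = F^n`: the image of
`V^{⊗ μ} → ⨂_j ⋀^{μ'_j} V → V^{⊗ μ} → ⨂_a S^{μ_a} V`. -/
noncomputable def schurModule (μ : YoungDiagram) : Submodule F (MvPolynomial (ℕ × Fin n) F) :=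
  Submodule.span F (Set.range (schurGen (R := F) (n := n) μ))

/-- The Schur functor of `μ` applied to `V`, as a `GL_n(F)`-module. -/
noncomputable def schurRep (μ : YoungDiagram) :
    Representation F (GL (Fin n) F) (schurModule F n μ) :=
  (multiRep F n).subrepresentation (schurModule F n μ) fun g => by
    refine Submodule.span_le.2 ?_
    rintro _ ⟨v, rfl⟩
    rw [SetLike.mem_coe, Submodule.mem_comap]
    exact Submodule.subset_span
      ⟨_, (multiAct_schurGen (g : Matrix (Fin n) (Fin n) F) μ v).symm⟩

/-- The one-dimensional module `Det^k`. -/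
noncomputable def detPow (k : ℕ) : Representation F (GL (Fin n) F) F where
  toFun g := ((g : Matrix (Fin n) (Fin n) F).det ^ k) • LinearMap.id
  map_one' := by ext; simp
  map_mul' g h := by ext; simp [mul_pow, mul_comm]

/-- `dim_F Hom_G(S_μ(V) ⊗ Det^k, S^m(V))` for `G = GL_n(F)`. -/
noncomputable def socleMult (μ : YoungDiagram) (k m : ℕ) : ℕ :=
  Module.finrank F (((schurRep F n μ).tprod (detPow F n k)).IntertwiningMap (symPow F n m))

/-- A filling of the cells of `μ` by elements of `Fin n` is semistandard if it weakly increases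
along rows and strictly increases down columns. -/
def IsSSYT {n : ℕ} {μ : YoungDiagram} (T : μ.cells → Fin n) : Prop :=
  (∀ c d : μ.cells, c.1.1 = d.1.1 → c.1.2 < d.1.2 → T c ≤ T d) ∧
  (∀ c d : μ.cells, c.1.2 = d.1.2 → c.1.1 < d.1.1 → T c < T d)

open Classical in
/-- The Schur polynomial `s_μ(x_0, …, x_{n-1}) = ∑_T x^T`, the sum over semistandard tableaux. -/
noncomputable def schurPoly (μ : YoungDiagram) : MvPolynomial (Fin n) ℤ :=
  ∑ T : μ.cells → Fin n with IsSSYT T, ∏ c, X (T c)

end Pool.Agent.H328Z.Soc
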