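import Pool.Agent.H328Z.Soc.Cov

open MvPolynomial

namespace Pool.Agent.H328Z.Soc

variable {F : Type*} [Field F] [Fintype F] {n : ℕ} [NeZero n]

/-- the additive polynomial with coefficients `c` -/
noncomputable def apol (F : Type*) [Fintype F] {A : Type*} [CommRing A] (c : Fin n → A) :
    Polynomial A :=
  Polynomial.X ^ Fintype.card F ^ n -
    ∑ i, Polynomial.C (c i) * Polynomial.X ^ Fintype.card F ^ (i : ℕ)

omit [NeZero n] in
lemma apol_deg_lt {A : Type*} [CommRing A] (c : Fin n → A) :
    (∑ i, Polynomial.C (c i) * Polynomial.X ^ Fintype.card F ^ (i : ℕ)).degree <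
      ((Fintype.card F ^ n : ℕ) : WithBot ℕ) := by
  refine lt_of_le_of_lt (Polynomial.degree_sum_le _ _) ?_
  rw [Finset.sup_lt_iff (WithBot.bot_lt_coe _)]
  intro i _
  refine lt_of_le_of_lt (Polynomial.degree_C_mul_X_pow_le _ _) ?_
  exact_mod_cast pow_lt_q i

omit [NeZero n] in
lemma apol_monic {A : Type*} [CommRing A] (c : Fin n → A) : (apol F c).Monic :=
  Polynomial.monic_X_pow_sub (apol_deg_lt c)

omit [NeZero n] in
lemma apol_natDegree {A : Type*} [CommRing A] (c : Fin n → A) :
    (apol F c).natDegree ≤ Fintype.card F ^ n := by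
  refine Polynomial.natDegree_le_iff_degree_le.2 ((Polynomial.degree_sub_le _ _).trans ?_)
  exact max_le (Polynomial.degree_X_pow_le _) (apol_deg_lt c).le

omit [NeZero n] [Field F] in
lemma apol_aeval {A B : Type*} [CommRing A] [CommRing B] [Algebra A B] (c : Fin n → A) (y : B) :
    Polynomial.aeval y (apol F c) =
      y ^ Fintype.card F ^ n - ∑ i, algebraMap A B (c i) * y ^ Fintype.card F ^ (i : ℕ) := by
  simp [apol, map_sum]

lemma lin_root (v : Fin n → F) :
    lin v ^ Fintype.card F ^ n - ∑ i, dk F n i * lin v ^ Fintype.card F ^ (i : ℕ) = 0 := by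
  rw [sub_eq_zero]
  simp only [lin, frob_sum, Finset.mul_sum]
  rw [Finset.sum_comm]
  refine Finset.sum_congr rfl fun j _ => ?_
  rw [← dk_eq j, Finset.smul_sum]
  simp only [mul_smul_comm]

omit [Fintype F] [NeZero n] in
lemma lin_injective : Function.Injective (lin : (Fin n → F) → MvPolynomial (Fin n) F) := by
  intro v w h
  funext i
  have := congrArg (eval (Pi.single i 1 : Fin n → F)) h
  simpa [eval_lin, Pi.single_apply] using this

omit [Fintype F] [NeZero n] in
lemma lin_single (j : Fin n) : lin (Pi.single j (1 : F)) = X j := by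
  simp [lin, Pi.single_apply]

omit [Fintype F] [NeZero n] in
lemma symAct_lin (M : Matrix (Fin n) (Fin n) F) (w : Fin n → F) :
    symAct M (lin w) = lin (M.mulVec w) := by
  simp only [lin, map_sum, map_smul, symAct, aeval_X, Matrix.mulVec, dotProduct, Finset.sum_smul,
    Finset.smul_sum, smul_smul]
  rw [Finset.sum_comm]
  simp only [mul_comm]

variable (F n) in
/-- the Dickson algebra -/
noncomputable abbrev DA : Subalgebra F (MvPolynomial (Fin n) F) :=
  Algebra.adjoin F (Set.range (dk F n))

lemma integral_DA : Algebra.IsIntegral (DA F n) (MvPolynomial (Fin n) F) := by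
  constructor
  intro p
  induction p using MvPolynomial.induction_on with
  | C a => exact isIntegral_algebraMap (x := (algebraMap F (DA F n) a))
  | add p r hp hr => exact hp.add hr
  | mul_X p j hp =>
    refine hp.mul ⟨apol F (fun i => (⟨dk F n i, Algebra.subset_adjoin ⟨i, rfl⟩⟩ : DA F n)),
      apol_monic _, ?_⟩
    rw [← Polynomial.aeval_def, apol_aeval, ← lin_single]
    exact lin_root _

theorem dk_indep : AlgebraicIndependent F (dk F n) := by
  have := integral_DA (F := F) (n := n)
  exact (Algebra.IsAlgebraic.isTranscendenceBasis_of_lift_le_trdeg_of_finite F (dk F n)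
    (by simp)).1

lemma DA_closed : IsIntegrallyClosed (DA F n) := by
  have e := (dk_indep (F := F) (n := n)).aevalEquiv
  exact IsIntegrallyClosed.of_equiv e.toRingEquiv

lemma mem_DA_of_frac {a r s : MvPolynomial (Fin n) F} (hr : r ∈ DA F n) (hs : s ∈ DA F n)
    (hs0 : s ≠ 0) (h : a * s = r) : a ∈ DA F n := by
  have := DA_closed (F := F) (n := n)
  have hi := (integral_DA (F := F) (n := n)).isIntegral a
  let K := FractionRing (MvPolynomial (Fin n) F)
  have hinj : Function.Injective (algebraMap (DA F n) K) :=
    (IsFractionRing.injective (MvPolynomial (Fin n) F) K).comp Subtype.val_injective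
  let φ : FractionRing (DA F n) →ₐ[DA F n] K :=
    IsFractionRing.liftAlgHom (g := Algebra.ofId (DA F n) K) hinj
  let x : FractionRing (DA F n) := algebraMap (DA F n) _ ⟨r, hr⟩ / algebraMap (DA F n) _ ⟨s, hs⟩
  have hs1 : algebraMap (MvPolynomial (Fin n) F) K s ≠ 0 := by simpa using hs0
  have hx : φ x = algebraMap (MvPolynomial (Fin n) F) K a := by
    simp only [x, map_div₀, AlgHom.commutes]
    change algebraMap (MvPolynomial (Fin n) F) K r / algebraMap (MvPolynomial (Fin n) F) K s = _
    rw [div_eq_iff hs1, ← map_mul, h]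
  have hxi : IsIntegral (DA F n) x := by
    rw [← isIntegral_algHom_iff φ φ.toRingHom.injective, hx]
    exact hi.algebraMap
  obtain ⟨y, hy⟩ := IsIntegrallyClosed.isIntegral_iff.1 hxi
  have : algebraMap (MvPolynomial (Fin n) F) K y.1 = algebraMap (MvPolynomial (Fin n) F) K a := by
    rw [← hx, ← hy, AlgHom.commutes]
    rfl
  rw [← IsFractionRing.injective _ _ this]
  exact y.2

theorem mem_DA_of_SI {a : MvPolynomial (Fin n) F} (ha : SI 0 a) : a ∈ DA F n := by
  classical
  let S := MvPolynomial (Fin n) F
  let K := FractionRing S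
  let ι : S →ₐ[F] K := IsScalarTower.toAlgHom F S K
  have hι : Function.Injective ι := IsFractionRing.injective S K
  let E : IntermediateField F K := IntermediateField.adjoin F (Set.range fun i => ι (dk F n i))
  let P : Polynomial E :=
    apol F (fun i => (⟨ι (dk F n i), IntermediateField.subset_adjoin _ _ ⟨i, rfl⟩⟩ : E))
  have hC : ∀ a : F, ι (C a) = algebraMap E K (algebraMap F E a) := by
    intro a
    rw [← IsScalarTower.algebraMap_apply]
    exact ι.commutes a
  have hroot : ∀ v, Polynomial.aeval (ι (lin v)) P = 0 := by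
    intro v
    have := congrArg ι (lin_root v)
    rw [apol_aeval]
    simpa [map_sum] using this
  have hinj : Function.Injective fun v => ι (lin v) := hι.comp lin_injective
  have hP : P.map (algebraMap E K) = ∏ v, (Polynomial.X - Polynomial.C (ι (lin v))) := by
    refine Polynomial.eq_of_monic_of_dvd_of_natDegree_le
      (Polynomial.monic_prod_of_monic _ _ fun v _ => Polynomial.monic_X_sub_C _)
      ((apol_monic _).map _) ?_ ?_
    · refine Fintype.prod_dvd_of_coprime (Polynomial.pairwise_coprime_X_sub_C hinj) fun v => ?_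
      rw [Polynomial.dvd_iff_isRoot, Polynomial.IsRoot.def, Polynomial.eval_map_algebraMap]
      exact hroot v
    · rw [Polynomial.natDegree_finsetProd_X_sub_C_eq_card]
      refine Polynomial.natDegree_map_le.trans ((apol_natDegree _).trans ?_)
      simp
  have hP0 : P ≠ 0 := (apol_monic _).ne_zero
  have hsep : P.Separable := by
    rw [← Polynomial.separable_map (algebraMap E K), hP]
    exact Polynomial.separable_prod_X_sub_C_iff.2 hinj
  have hroots : ∀ y : K, Polynomial.aeval y P = 0 → ∃ v, y = ι (lin v) := by
    intro y hy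
    rw [← Polynomial.eval_map_algebraMap, hP, Polynomial.eval_prod, Finset.prod_eq_zero_iff] at hy
    obtain ⟨v, _, hv⟩ := hy
    exact ⟨v, by simpa [sub_eq_zero] using hv⟩
  have hsf : P.IsSplittingField E K := by
    rw [isSplittingField_iff_intermediateField]
    refine ⟨?_, ?_⟩
    · rw [hP]
      exact Polynomial.Splits.prod fun v _ => Polynomial.Splits.X_sub_C _
    · rw [eq_top_iff]
      intro y _
      have hS : ∀ p : S, ι p ∈ IntermediateField.adjoin E (P.rootSet K) := by
        intro p
        induction p using MvPolynomial.induction_on with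
        | C a =>
          rw [hC]
          exact IntermediateField.algebraMap_mem _ _
        | add p r hp hr => rw [map_add]; exact add_mem hp hr
        | mul_X p j hp =>
          rw [map_mul]
          refine mul_mem hp (IntermediateField.subset_adjoin _ _ ?_)
          rw [Polynomial.mem_rootSet_of_ne hP0, ← lin_single]
          exact hroot _
      obtain ⟨r, s, _, rfl⟩ := IsFractionRing.div_surjective S y
      exact div_mem (hS r) (hS s)
  have : IsGalois E K := IsGalois.of_separable_splitting_field hsep
  have : FiniteDimensional E K := Polynomial.IsSplittingField.finiteDimensional K P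
  have hmem : ι a ∈ (⊥ : IntermediateField E K) := by
    rw [IsGalois.mem_bot_iff_fixed]
    intro σ
    have h1 : ∀ j, ∃ v, σ (ι (X j)) = ι (lin v) := by
      intro j
      apply hroots
      rw [Polynomial.aeval_algHom_apply, ← lin_single, hroot, map_zero]
    choose v hv using h1
    let M : Matrix (Fin n) (Fin n) F := Matrix.of fun i j => v j i
    have h3 : ∀ p, σ (ι p) = ι (symAct M p) := by
      intro p
      induction p using MvPolynomial.induction_on with
      | C a => rw [symAct_C, hC a, AlgEquiv.commutes]
      | add p r hp hr => rw [map_add, map_add, map_add, map_add, hp, hr]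
      | mul_X p j hp =>
        rw [map_mul, map_mul, map_mul, map_mul, hp, hv j, symAct_X]
        rfl
    have hM : M.det ≠ 0 := by
      intro h
      obtain ⟨w, hw, hw'⟩ := Matrix.exists_mulVec_eq_zero_iff.2 h
      apply hw
      apply hinj
      apply σ.injective
      simp only [h3, symAct_lin, hw', Matrix.mulVec_zero]
    have h4 := ha (Matrix.GeneralLinearGroup.mkOfDetNeZero M hM)
    change symAct M a = C (M.det ^ 0) * a at h4
    rw [h3, h4]
    simp
  obtain ⟨⟨y, hy⟩, hy'⟩ := IntermediateField.mem_bot.1 hmem
  obtain rfl : y = ι a := hy'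
  obtain ⟨r, s, hrs⟩ := (IntermediateField.mem_adjoin_range_iff _ _ _).1 hy
  have e : ∀ r : MvPolynomial (Fin n) F, aeval (fun i => ι (dk F n i)) r = ι (aeval (dk F n) r) :=
    fun r => by rw [← AlgHom.comp_apply, comp_aeval]
  have hm : ∀ r : MvPolynomial (Fin n) F, aeval (dk F n) r ∈ DA F n := fun r => by
    rw [DA, Algebra.adjoin_range_eq_range_aeval]
    exact ⟨r, rfl⟩
  rw [e, e] at hrs
  by_cases hs : aeval (dk F n) s = 0
  · rw [hs, map_zero, div_zero, map_eq_zero_iff _ hι] at hrs
    rw [hrs]
    exact zero_mem _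
  · refine mem_DA_of_frac (hm r) (hm s) hs (hι ?_)
    rw [map_mul, hrs, div_mul_cancel₀]
    exact (map_ne_zero_iff _ hι).2 hs

theorem SI_zero_iff {a : MvPolynomial (Fin n) F} : SI 0 a ↔ ∃ r : MvPolynomial (Fin n) F, aeval (dk F n) r = a := by
  constructor
  · intro h
    have := mem_DA_of_SI h
    rwa [DA, Algebra.adjoin_range_eq_range_aeval] at this
  · rintro ⟨r, rfl⟩ g
    rw [← AlgHom.comp_apply, comp_aeval]
    have : (fun i => symAct (g : Matrix (Fin n) (Fin n) F) (dk F n i)) = dk F n := by
      funext i
      simpa using dk_SI i g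
    simp [this]

end Pool.Agent.H328Z.Soc
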