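import Mathlib

open PowerSeries

namespace Pool.Agent.H328Z.Soc

noncomputable def geom (w : ℕ) : ℚ⟦X⟧ := mk fun j => if w ∣ j then 1 else 0

lemma geom_mul {w : ℕ} (hw : 0 < w) : geom w * (1 - X ^ w) = 1 := by
  ext j
  rw [mul_sub, mul_one, map_sub, coeff_mul_X_pow', geom, coeff_mk, coeff_mk, coeff_one]
  by_cases h : w ≤ j
  · have h0 : j ≠ 0 := by omega
    rw [if_pos h, if_neg h0]
    have : w ∣ j ↔ w ∣ j - w := (Nat.dvd_sub_iff_left h dvd_rfl).symm
    by_cases h1 : w ∣ j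
    · rw [if_pos h1, if_pos (this.1 h1), sub_self]
    · rw [if_neg h1, if_neg (fun h2 => h1 (this.2 h2)), sub_self]
  · rw [if_neg h, sub_zero]
    by_cases h0 : j = 0
    · simp [h0]
    · rw [if_neg h0, if_neg]
      intro h1
      exact h (Nat.le_of_dvd (Nat.pos_of_ne_zero h0) h1)

variable {ι : Type*} [Fintype ι]

noncomputable def cnt (w : ι → ℕ) : ℚ⟦X⟧ :=
  mk fun j => (Nat.card {e : ι →₀ ℕ // Finsupp.weight w e = j} : ℚ)

lemma weight_eq (w : ι → ℕ) (e : ι →₀ ℕ) : Finsupp.weight w e = ∑ i, e i * w i := by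
  rw [Finsupp.weight_apply, Finsupp.sum_fintype _ _ (by simp)]
  simp

lemma cnt_eq {w : ι → ℕ} (hw : ∀ i, 0 < w i) : cnt w = ∏ i, geom (w i) := by
  classical
  ext j
  rw [coeff_prod, cnt, coeff_mk]
  simp only [geom, coeff_mk]
  have h1 : ∀ l : ι →₀ ℕ, (∏ i, (if w i ∣ l i then (1 : ℚ) else 0)) =
      if ∀ i, w i ∣ l i then 1 else 0 := by
    intro l
    rw [Finset.prod_boole]
    simp
  simp only [h1]
  rw [Finset.sum_boole, Nat.cast_inj, ← Nat.card_eq_finsetCard]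
  refine Nat.card_eq_of_bijective (fun e => ⟨Finsupp.equivFunOnFinite.symm fun i => e.1 i * w i,
    ?_⟩) ⟨?_, ?_⟩
  · rw [Finset.mem_filter, Finset.mem_finsuppAntidiag]
    refine ⟨⟨?_, Finset.subset_univ _⟩, fun i => by simp⟩
    simpa [weight_eq] using e.2
  · intro e e' h
    ext i
    have := congrFun (Finsupp.equivFunOnFinite.symm.injective (congrArg Subtype.val h)) i
    exact Nat.eq_of_mul_eq_mul_right (hw i) this
  · rintro ⟨l, hl⟩
    rw [Finset.mem_filter, Finset.mem_finsuppAntidiag] at hl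
    refine ⟨⟨Finsupp.equivFunOnFinite.symm fun i => l i / w i, ?_⟩, ?_⟩
    · rw [weight_eq, ← hl.1.1]
      exact Finset.sum_congr rfl fun i _ => by simp [Nat.div_mul_cancel (hl.2 i)]
    · ext i
      simp [Nat.div_mul_cancel (hl.2 i)]

lemma cnt_eq_inv {w : ι → ℕ} (hw : ∀ i, 0 < w i) : cnt w = (∏ i, (1 - X ^ w i : ℚ⟦X⟧))⁻¹ := by
  rw [PowerSeries.eq_inv_iff_mul_eq_one, cnt_eq hw, ← Finset.prod_mul_distrib]
  · exact Finset.prod_eq_one fun i _ => geom_mul (hw i)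
  · rw [map_prod]
    refine Finset.prod_ne_zero_iff.2 fun i _ => ?_
    simp [(hw i).ne']

lemma finite_deg {I : Type*} [Finite I] {w : ι → ℕ} (hw : ∀ i, 0 < w i) (c : I → ℕ) (m : ℕ) :
    Finite {j : (Σ _ : I, ι →₀ ℕ) // c j.1 + Finsupp.weight w j.2 = m} := by
  have h := (Finsupp.finite_of_nat_weight_le w (fun i => (hw i).ne') m).to_subtype
  refine Finite.of_injective (fun j => ((j.1.1, ⟨j.1.2, ?_⟩) :
    I × {d : ι →₀ ℕ | Finsupp.weight w d ≤ m})) ?_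
  · have := j.2
    simp only [Set.mem_ofPred_eq]
    omega
  · rintro ⟨⟨a, b⟩, h1⟩ ⟨⟨a', b'⟩, h2⟩ h
    simp only [Prod.mk.injEq, Subtype.mk.injEq] at h
    obtain ⟨rfl, rfl⟩ := h
    rfl

lemma card_deg {I : Type*} [Fintype I] {w : ι → ℕ} (hw : ∀ i, 0 < w i) (c : I → ℕ) :
    (mk fun m => (Nat.card {j : (Σ _ : I, ι →₀ ℕ) // c j.1 + Finsupp.weight w j.2 = m} : ℚ)) =
      (∑ U, X ^ c U) * cnt w := by
  ext m
  rw [Finset.sum_mul, map_sum, coeff_mk]
  have e : {j : (Σ _ : I, ι →₀ ℕ) // c j.1 + Finsupp.weight w j.2 = m} ≃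
      Σ U : I, {e : ι →₀ ℕ // c U + Finsupp.weight w e = m} :=
    ⟨fun j => ⟨j.1.1, j.1.2, j.2⟩, fun j => ⟨⟨j.1, j.2.1⟩, j.2.2⟩, fun _ => rfl, fun _ => rfl⟩
  have hfin : ∀ U : I, Finite {e : ι →₀ ℕ // c U + Finsupp.weight w e = m} := by
    intro U
    have := finite_deg hw c m
    exact Finite.of_injective (fun e => (⟨⟨U, e.1⟩, e.2⟩ :
      {j : (Σ _ : I, ι →₀ ℕ) // c j.1 + Finsupp.weight w j.2 = m})) fun a b h => by
        simpa [Subtype.ext_iff] using h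
  rw [Nat.card_congr e, Nat.card_sigma, Nat.cast_sum]
  refine Finset.sum_congr rfl fun U _ => ?_
  rw [coeff_X_pow_mul', cnt, coeff_mk]
  split_ifs with h
  · congr 1
    exact Nat.card_congr (Equiv.subtypeEquivRight fun e => by omega)
  · have : IsEmpty {e : ι →₀ ℕ // c U + Finsupp.weight w e = m} := ⟨fun e => by
      have := e.2
      omega⟩
    simp

end Pool.Agent.H328Z.Soc
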