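import Pool.Agent.H328Z.Soc.Dick
import Pool.Agent.H328Z.Soc.Gen

open MvPolynomial Matrix

namespace Pool.Agent.H328Z.Soc

variable {F : Type*} [Field F] {n : ℕ} {μ : YoungDiagram}

lemma bd_li : LinearIndependent F (fun U : Tab μ n => bd F U.1) :=
  Fintype.linearIndependent_iff.2 bd_indep

lemma span_bd : Submodule.span F (Set.range fun U : Tab μ n => bd F U.1) = schurModule F n μ := by
  apply le_antisymm
  · refine Submodule.span_le.2 ?_
    rintro _ ⟨U, rfl⟩
    exact Submodule.subset_span ⟨_, (bd_eq_schurGen U.1).symm⟩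
  · refine Submodule.span_le.2 ?_
    rintro _ ⟨v, rfl⟩
    rw [schurGen_eq]
    refine Submodule.sum_mem _ fun W _ => Submodule.smul_mem _ _ ?_
    rw [bd_eq_sum]
    exact Submodule.sum_mem _ fun U _ => zsmul_mem (Submodule.subset_span (Set.mem_range_self U)) _

variable (F n μ) in
noncomputable def sb : Module.Basis (Tab μ n) F (schurModule F n μ) :=
  (Module.Basis.span bd_li).map (LinearEquiv.ofEq _ _ span_bd)

lemma sb_coe (U : Tab μ n) : (sb F n μ U : MvPolynomial (ℕ × Fin n) F) = bd F U.1 := by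
  simp [sb, Module.Basis.span_apply]

lemma schurRep_sb (g : GL (Fin n) F) (T : Tab μ n) :
    schurRep F n μ g (sb F n μ T) =
      ∑ U, rho μ (g : Matrix (Fin n) (Fin n) F) U T • sb F n μ U := by
  apply Subtype.ext
  have : (schurRep F n μ g (sb F n μ T) : MvPolynomial (ℕ × Fin n) F) =
      multiAct (g : Matrix (Fin n) (Fin n) F) (sb F n μ T : MvPolynomial (ℕ × Fin n) F) := rfl
  rw [this, sb_coe, multiAct_bd_rho, Submodule.coe_sum]
  simp only [Submodule.coe_smul, sb_coe]

variable (F n μ) in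
noncomputable def tb : Module.Basis (Tab μ n) F (TensorProduct F (schurModule F n μ) F) :=
  (sb F n μ).map (TensorProduct.rid F (schurModule F n μ)).symm

lemma tb_eq (U : Tab μ n) : tb F n μ U = sb F n μ U ⊗ₜ[F] (1 : F) := by
  simp [tb]

lemma tprod_tb (k : ℕ) (g : GL (Fin n) F) (T : Tab μ n) :
    ((schurRep F n μ).tprod (detPow F n k)) g (tb F n μ T) =
      ((g : Matrix (Fin n) (Fin n) F).det ^ k) •
        ∑ U, rho μ (g : Matrix (Fin n) (Fin n) F) U T • tb F n μ U := by
  have h : detPow F n k g (1 : F) = ((g : Matrix (Fin n) (Fin n) F).det ^ k) • (1 : F) := rfl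
  rw [Representation.tprod_apply, tb_eq, TensorProduct.map_tmul, schurRep_sb, h,
    TensorProduct.tmul_smul, TensorProduct.sum_tmul]
  simp only [tb_eq, TensorProduct.smul_tmul']

lemma symPow_coe (m : ℕ) (g : GL (Fin n) F) (p : homogeneousSubmodule (Fin n) F m) :
    (symPow F n m g p : MvPolynomial (Fin n) F) = symAct (g : Matrix (Fin n) (Fin n) F) p := rfl

variable (F n μ) in
noncomputable def Theta (k m : ℕ) :
    ((schurRep F n μ).tprod (detPow F n k)).IntertwiningMap (symPow F n m) →ₗ[F]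
      (Tab μ n → MvPolynomial (Fin n) F) where
  toFun φ := fun T => (φ (tb F n μ T) : MvPolynomial (Fin n) F)
  map_add' φ ψ := by funext T; simp
  map_smul' a φ := by funext T; simp

lemma Theta_inj (k m : ℕ) : Function.Injective (Theta F n μ k m) := by
  intro φ ψ h
  apply Representation.IntertwiningMap.ext
  refine (tb F n μ).ext fun T => Subtype.ext ?_
  exact congrFun h T

lemma vecMul_rho_C (f : Tab μ n → MvPolynomial (Fin n) F) (M : Matrix (Fin n) (Fin n) F)
    (T : Tab μ n) : (f ᵥ* rho μ (M.map C)) T = ∑ U, rho μ M U T • f U := by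
  rw [rho_map]
  simp only [vecMul, dotProduct, Matrix.map_apply, smul_eq_C_mul, mul_comm]

lemma mem_range_Theta (k m : ℕ) (f : Tab μ n → MvPolynomial (Fin n) F) :
    f ∈ LinearMap.range (Theta F n μ k m) ↔ Eqv μ k f ∧ ∀ T, (f T).IsHomogeneous m := by
  constructor
  · rintro ⟨φ, rfl⟩
    refine ⟨fun g T => ?_, fun T => (φ (tb F n μ T)).2⟩
    have h := congrArg Subtype.val (φ.isIntertwining _ _ g (tb F n μ T))
    rw [symPow_coe, tprod_tb, map_smul, map_sum] at h
    simp only [map_smul, Submodule.coe_smul, Submodule.coe_sum] at h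
    rw [vecMul_rho_C, ← smul_eq_C_mul]
    exact h.symm
  · rintro ⟨h1, h2⟩
    let l : TensorProduct F (schurModule F n μ) F →ₗ[F] homogeneousSubmodule (Fin n) F m :=
      (tb F n μ).constr F fun T => ⟨f T, h2 T⟩
    have hl : ∀ T, (l (tb F n μ T) : MvPolynomial (Fin n) F) = f T := fun T => by
      simp [l]
    refine ⟨⟨l, fun g => (tb F n μ).ext fun T => Subtype.ext ?_⟩, funext hl⟩
    rw [LinearMap.comp_apply, LinearMap.comp_apply, symPow_coe, tprod_tb, map_smul, map_sum]
    simp only [map_smul, Submodule.coe_smul, Submodule.coe_sum, hl]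
    rw [h1 g T, vecMul_rho_C, ← smul_eq_C_mul]

variable [Fintype F] [NeZero n]

variable (F n μ) in
noncomputable def Psi (k : ℕ) :
    (Tab μ n → MvPolynomial (Fin n) F) →ₗ[F] (Tab μ n → MvPolynomial (Fin n) F) where
  toFun a := LL F n ^ k • ((fun U => aeval (dk F n) (a U)) ᵥ* rho μ (Phi F n))
  map_add' a b := by
    funext T
    simp only [vecMul, dotProduct, Pi.smul_apply, Pi.add_apply, map_add, add_mul,
      Finset.sum_add_distrib, smul_eq_mul, mul_add]
  map_smul' r a := by
    funext T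
    simp only [vecMul, dotProduct, Pi.smul_apply, map_smul, smul_eq_mul, RingHom.id_apply,
      smul_mul_assoc, ← Finset.smul_sum, mul_smul_comm]

lemma Psi_apply (k : ℕ) (a : Tab μ n → MvPolynomial (Fin n) F) :
    Psi F n μ k a = LL F n ^ k • ((fun U => aeval (dk F n) (a U)) ᵥ* rho μ (Phi F n)) := rfl

lemma Psi_inj (k : ℕ) : LinearMap.ker (Psi F n μ k) = ⊥ := by
  rw [LinearMap.ker_eq_bot']
  intro a ha
  rw [Psi_apply, smul_eq_zero] at ha
  have h1 := vecMul_rho_inj (ha.resolve_left (pow_ne_zero _ LL_ne_zero))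
  funext U
  exact (dk_indep (F := F) (n := n)).eq_zero_of_aeval_eq_zero _ (congrFun h1 U)

lemma mem_range_Psi {k : ℕ} (hk : k + μ.rowLen 0 + 2 ≤ Fintype.card F)
    (f : Tab μ n → MvPolynomial (Fin n) F) : f ∈ LinearMap.range (Psi F n μ k) ↔ Eqv μ k f := by
  constructor
  · rintro ⟨a, rfl⟩
    exact eqv_of k fun U => SI_zero_iff.2 ⟨_, rfl⟩
  · intro h
    obtain ⟨a, ha, rfl⟩ := exists_of_eqv hk h
    choose r hr using fun U => SI_zero_iff.1 (ha U)
    exact ⟨r, by rw [Psi_apply, funext hr]⟩

variable (F n μ) in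
noncomputable def pb : Module.Basis (Σ _ : Tab μ n, Fin n →₀ ℕ) F
    (Tab μ n → MvPolynomial (Fin n) F) :=
  Pi.basis fun _ => basisMonomials (Fin n) F

lemma Psi_pb_hom (k : ℕ) (j : Σ _ : Tab μ n, Fin n →₀ ℕ) (T : Tab μ n) :
    (Psi F n μ k (pb F n μ j) T).IsHomogeneous
      ((k * dl F n + wt F j.1.1) + Finsupp.weight (dw F n) j.2) := by
  obtain ⟨U, e⟩ := j
  have h1 : (aeval (dk F n) (monomial e (1 : F))).IsHomogeneous (Finsupp.weight (dw F n) e) := by
    rw [aeval_monomial, map_one, one_mul, Finsupp.prod_fintype _ _ (by simp), weight_eq]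
    exact IsHomogeneous.prod _ _ _ fun i _ => by
      rw [mul_comm]
      exact (dk_hom i).pow _
  rw [Psi_apply, Pi.smul_apply, smul_eq_mul, vecMul, dotProduct, Finset.sum_eq_single U]
  · have h2 : pb F n μ ⟨U, e⟩ U = monomial e 1 := by simp [pb]
    rw [h2, add_assoc, add_comm (wt F U.1), mul_comm k]
    exact (LL_isHomogeneous.pow k).mul (h1.mul (rho_Phi_hom U T))
  · intro V _ hV
    have h2 : pb F n μ ⟨U, e⟩ V = 0 := by simp [pb, hV]
    rw [h2, map_zero, zero_mul]
  · simp

theorem socleMult_eq {k : ℕ} (hk : k + μ.rowLen 0 + 2 ≤ Fintype.card F) (m : ℕ) :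
    socleMult F n μ k m = Nat.card {j : (Σ _ : Tab μ n, Fin n →₀ ℕ) //
      (k * dl F n + wt F j.1.1) + Finsupp.weight (dw F n) j.2 = m} := by
  classical
  have hw : ∀ i, 0 < dw F n i := fun i => Nat.sub_pos_of_lt (pow_lt_q i)
  have hfin := finite_deg hw (fun U : Tab μ n => k * dl F n + wt F U.1) m
  set J := {j : (Σ _ : Tab μ n, Fin n →₀ ℕ) //
      (k * dl F n + wt F j.1.1) + Finsupp.weight (dw F n) j.2 = m} with hJ
  let _ : Fintype J := Fintype.ofFinite J
  have hli : LinearIndependent F (Psi F n μ k ∘ pb F n μ) :=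
    (pb F n μ).linearIndependent.map' _ (Psi_inj k)
  have hli' : LinearIndependent F ((Psi F n μ k ∘ pb F n μ) ∘ (Subtype.val : J → _)) :=
    hli.comp _ Subtype.val_injective
  rw [socleMult, ← LinearMap.finrank_range_of_inj (Theta_inj k m), Nat.card_eq_fintype_card,
    ← finrank_span_eq_card hli']
  suffices h : LinearMap.range (Theta F n μ k m) =
      Submodule.span F (Set.range ((Psi F n μ k ∘ pb F n μ) ∘ (Subtype.val : J → _))) by rw [h]
  apply le_antisymm
  · intro f hf
    obtain ⟨h1, h2⟩ := (mem_range_Theta k m f).1 hf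
    obtain ⟨a, rfl⟩ := (mem_range_Psi hk f).2 h1
    let π : (Tab μ n → MvPolynomial (Fin n) F) →ₗ[F] (Tab μ n → MvPolynomial (Fin n) F) :=
      (homogeneousComponent m).compLeft _
    have h3 : π (Psi F n μ k a) = Psi F n μ k a := by
      funext T
      change homogeneousComponent m (Psi F n μ k a T) = _
      rw [homogeneousComponent_of_mem (h2 T), if_pos rfl]
    rw [← h3]
    have h4 : ∀ a ∈ Submodule.span F (Set.range (pb F n μ)), π (Psi F n μ k a) ∈
        Submodule.span F (Set.range ((Psi F n μ k ∘ pb F n μ) ∘ (Subtype.val : J → _))) := by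
      intro a ha
      induction ha using Submodule.span_induction with
      | mem x hx =>
        obtain ⟨j, rfl⟩ := hx
        by_cases hj : (k * dl F n + wt F j.1.1) + Finsupp.weight (dw F n) j.2 = m
        · refine Submodule.subset_span ⟨⟨j, hj⟩, ?_⟩
          funext T
          change _ = homogeneousComponent m (Psi F n μ k (pb F n μ j) T)
          rw [homogeneousComponent_of_mem (Psi_pb_hom k j T), if_pos hj.symm]
          rfl
        · have : π (Psi F n μ k (pb F n μ j)) = 0 := by
            funext T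
            change homogeneousComponent m (Psi F n μ k (pb F n μ j) T) = 0
            rw [homogeneousComponent_of_mem (Psi_pb_hom k j T), if_neg (Ne.symm hj)]
          rw [this]
          exact Submodule.zero_mem _
      | zero => simp
      | add x y _ _ hx hy => rw [map_add, map_add]; exact add_mem hx hy
      | smul r x _ hx => rw [map_smul, map_smul]; exact Submodule.smul_mem _ _ hx
    exact h4 a (by rw [(pb F n μ).span_eq]; trivial)
  · refine Submodule.span_le.2 ?_
    rintro _ ⟨j, rfl⟩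
    refine (mem_range_Theta k m _).2 ⟨(mem_range_Psi hk _).1 ⟨_, rfl⟩, fun T => ?_⟩
    have := Psi_pb_hom (F := F) k j.1 T
    rwa [j.2] at this

omit [Field F] [NeZero n] in
lemma aeval_schur :
    aeval (fun i : Fin n => (PowerSeries.X : PowerSeries ℚ) ^ Fintype.card F ^ (i : ℕ))
      (schurPoly n μ) = ∑ U : Tab μ n, PowerSeries.X ^ wt F U.1 := by
  classical
  simp only [schurPoly, map_sum, map_prod, aeval_X, wt, Finset.prod_pow_eq_pow_sum]
  exact Finset.sum_subtype _ (by simp) _

theorem main {k : ℕ} (hk : k + μ.rowLen 0 + 2 ≤ Fintype.card F) :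
    PowerSeries.mk (fun m => (socleMult F n μ k m : ℚ)) =
      PowerSeries.X ^ (k * ((Fintype.card F ^ n - 1) / (Fintype.card F - 1))) *
        (∏ i ∈ Finset.range n, (1 - PowerSeries.X ^ (Fintype.card F ^ n - Fintype.card F ^ i)))⁻¹ *
        aeval (fun i : Fin n => (PowerSeries.X : PowerSeries ℚ) ^ Fintype.card F ^ (i : ℕ))
          (schurPoly n μ) := by
  have hw : ∀ i, 0 < dw F n i := fun i => Nat.sub_pos_of_lt (pow_lt_q i)
  simp only [socleMult_eq hk]
  rw [card_deg hw (fun U : Tab μ n => k * dl F n + wt F U.1), cnt_eq_inv hw, aeval_schur,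
    ← Nat.geomSum_eq two_le_q, Finset.sum_range, Finset.prod_range]
  simp only [pow_add, ← Finset.mul_sum, dl, dw]
  ring

end Pool.Agent.H328Z.Soc
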