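import Pool.Agent.H328Z.Soc.Defs

open MvPolynomial Equiv

namespace Pool.Agent.H328Z.Soc

variable {n : ℕ} {μ : YoungDiagram}

/-- column group -/
def colGrp (μ : YoungDiagram) : Subgroup (Perm μ.cells) where
  carrier := {σ | ∀ c, (σ c).1.2 = c.1.2}
  one_mem' := fun _ => rfl
  mul_mem' := fun {a b} ha hb c => by rw [Perm.mul_apply, ha, hb]
  inv_mem' := fun {a} ha c => by
    have := ha (a⁻¹ c)
    simpa using this.symm

def colFin (μ : YoungDiagram) : Finset (Perm μ.cells) :=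
  Finset.univ.filter fun σ => ∀ c, (σ c).1.2 = c.1.2

lemma mem_colFin {σ : Perm μ.cells} : σ ∈ colFin μ ↔ σ ∈ colGrp μ := by
  simp [colFin, colGrp]

lemma mem_colGrp {σ : Perm μ.cells} : σ ∈ colGrp μ ↔ ∀ c, (σ c).1.2 = c.1.2 := Iff.rfl

noncomputable def ex (T : μ.cells → Fin n) : ℕ × Fin n →₀ ℕ :=
  ∑ c, Finsupp.single (c.1.1, T c) 1

noncomputable def mono (R : Type*) [CommRing R] (T : μ.cells → Fin n) :
    MvPolynomial (ℕ × Fin n) R := ∏ c, X (c.1.1, T c)

noncomputable def bd (R : Type*) [CommRing R] (T : μ.cells → Fin n) :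
    MvPolynomial (ℕ × Fin n) R :=
  ∑ σ ∈ colFin μ, (Perm.sign σ : ℤ) • mono R (T ∘ σ)

variable {R : Type*} [CommRing R]

lemma mono_eq (T : μ.cells → Fin n) : mono R T = monomial (ex T) 1 := by
  unfold mono ex
  rw [monomial_sum_one]
  rfl

lemma mono_comp_row (T : μ.cells → Fin n) (π : Perm μ.cells) (h : ∀ c, (π c).1.1 = c.1.1) :
    mono R (T ∘ π) = mono R T := by
  unfold mono
  rw [← Equiv.prod_comp π (fun c => (X (c.1.1, T c) : MvPolynomial (ℕ × Fin n) R))]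
  simp only [h, Function.comp]

lemma schurGen_eq (v : μ.cells → Fin n → R) :
    schurGen μ v = ∑ W : μ.cells → Fin n, (∏ c, v c (W c)) • bd R W := by
  unfold schurGen bd
  simp only [Finset.smul_sum]
  rw [Finset.sum_comm]
  refine Finset.sum_congr rfl fun σ _ => ?_
  rw [Finset.prod_univ_sum, Fintype.piFinset_univ, Finset.smul_sum]
  symm
  refine Fintype.sum_equiv (Equiv.arrowCongr σ.symm (Equiv.refl _)) _ _ fun W => ?_
  rw [smul_comm]
  congr 1
  rw [Finset.prod_smul]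
  have h1 : ∀ c, (Equiv.arrowCongr σ.symm (Equiv.refl (Fin n))) W c = W (σ c) := fun c => by
    simp
  simp only [h1, mono, Function.comp]
  rw [Equiv.prod_comp σ (fun c => v c (W c))]

lemma bd_eq_schurGen (T : μ.cells → Fin n) :
    bd R T = schurGen μ (fun c => Pi.single (T c) (1 : R)) := by
  rw [schurGen_eq, Finset.sum_eq_single T]
  · simp
  · intro W _ hW
    obtain ⟨c, hc⟩ := Function.ne_iff.1 hW
    rw [Finset.prod_eq_zero (Finset.mem_univ c) (by simp [hc]), zero_smul]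
  · simp

lemma multiAct_bd (M : Matrix (Fin n) (Fin n) R) (T : μ.cells → Fin n) :
    multiAct M (bd R T) = ∑ W : μ.cells → Fin n, (∏ c, M (W c) (T c)) • bd R W := by
  rw [bd_eq_schurGen, multiAct_schurGen, schurGen_eq]
  simp

lemma bd_comp (T : μ.cells → Fin n) {τ : Perm μ.cells} (hτ : τ ∈ colGrp μ) :
    bd R (T ∘ τ) = (Perm.sign τ : ℤ) • bd R T := by
  unfold bd
  rw [Finset.smul_sum]
  refine Finset.sum_equiv (Equiv.mulLeft τ) (fun σ => ?_) fun σ _ => ?_
  · simp only [mem_colFin, Equiv.coe_mulLeft]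
    exact ((colGrp μ).mul_mem_cancel_left hτ).symm
  · simp only [Equiv.coe_mulLeft, smul_smul, Perm.sign_mul, Units.val_mul, ← mul_assoc]
    rw [← Units.val_mul, Int.units_mul_self]
    simp [Function.comp_assoc]

lemma map_bd {R' : Type*} [CommRing R'] (φ : R →+* R') (T : μ.cells → Fin n) :
    MvPolynomial.map φ (bd R T) = bd R' T := by
  simp [bd, mono, map_sum, map_prod]

lemma sum_coset {G : Type*} [Group G] [Fintype G] (H : Subgroup G) [Fintype (G ⧸ H)]
    {A : Type*} [AddCommMonoid A]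
    (φ : G → A) (hφ : ∀ g, ∀ h ∈ H, φ (g * h) = φ g) :
    ∑ g, φ g = Nat.card H • ∑ q : G ⧸ H, φ q.out := by
  classical
  have hb : Function.Bijective (fun x : (G ⧸ H) × H => x.1.out * (x.2 : G)) := by
    constructor
    · rintro ⟨q, h⟩ ⟨q', h'⟩ e
      have e1 : q = q' := by
        have := congrArg (fun g : G => (g : G ⧸ H)) e
        simpa [QuotientGroup.mk_mul_of_mem _ h.2, QuotientGroup.mk_mul_of_mem _ h'.2] using this
      subst e1
      have : (h : G) = h' := mul_left_cancel e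
      rw [Subtype.ext this]
    · intro g
      obtain ⟨h, hh⟩ := QuotientGroup.mk_out_eq_mul H g
      exact ⟨⟨(g : G ⧸ H), h⁻¹⟩, by simp [hh]⟩
  rw [← (Equiv.ofBijective _ hb).sum_comp, Fintype.sum_prod_type, Finset.smul_sum]
  refine Finset.sum_congr rfl fun q _ => ?_
  simp only [Equiv.ofBijective_apply]
  rw [Finset.sum_congr rfl fun (h : H) _ => hφ q.out h h.2]
  simp

/-- permutations supported in `Z` -/
def suppGrp (Z : Set μ.cells) : Subgroup (Perm μ.cells) where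
  carrier := {σ | ∀ c, c ∉ Z → σ c = c}
  one_mem' := fun _ _ => rfl
  mul_mem' := fun {a b} ha hb c hc => by rw [Perm.mul_apply, hb c hc, ha c hc]
  inv_mem' := fun {a} ha c hc => by
    rw [Perm.inv_eq_iff_eq]; exact (ha c hc).symm

lemma suppGrp_mem {Z : Set μ.cells} {π : Perm μ.cells} (h : π ∈ suppGrp Z) {c : μ.cells}
    (hc : c ∈ Z) : π c ∈ Z := by
  by_contra h1
  have := π.injective (h _ h1)
  rw [this] at h1
  exact h1 hc

lemma eq_zero_of_eq_neg {s : MvPolynomial (ℕ × Fin n) ℤ} (h : s = -s) : s = 0 := by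
  have : (2 : MvPolynomial (ℕ × Fin n) ℤ) * s = 0 := by linear_combination h
  exact (mul_eq_zero.1 this).resolve_left two_ne_zero

lemma garnir_full (T : μ.cells → Fin n) (Z : Set μ.cells) [Fintype (suppGrp Z)]
    (hZ : ∀ σ ∈ colGrp μ, ∃ a b, a ≠ b ∧ σ a ∈ Z ∧ σ b ∈ Z ∧ a.1.1 = b.1.1) :
    ∑ π : suppGrp Z, (Perm.sign π.1 : ℤ) • bd ℤ (T ∘ π.1) = 0 := by
  classical
  simp only [bd, Finset.smul_sum]
  rw [Finset.sum_comm]
  refine Finset.sum_eq_zero fun σ hσ => ?_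
  obtain ⟨a, b, hab, ha, hb, hr⟩ := hZ σ (mem_colFin.1 hσ)
  have hs : swap (σ a) (σ b) ∈ suppGrp Z := by
    intro c hc
    exact swap_apply_of_ne_of_ne (fun h => hc (h ▸ ha)) (fun h => hc (h ▸ hb))
  apply eq_zero_of_eq_neg
  rw [← Finset.sum_neg_distrib]
  refine Fintype.sum_equiv (Equiv.mulRight (⟨_, hs⟩ : suppGrp Z)) _ _ fun π => ?_
  have h1 : (T ∘ (π.1 * swap (σ a) (σ b))) ∘ σ = ((T ∘ π.1) ∘ σ) ∘ swap a b := by
    funext c
    simp only [Function.comp, Perm.mul_apply]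
    rw [σ.injective.swap_apply]
  have h2 : mono ℤ (((T ∘ π.1) ∘ σ) ∘ swap a b) = mono ℤ ((T ∘ π.1) ∘ σ) := by
    apply mono_comp_row
    intro c
    rw [swap_apply_def]
    split_ifs with h h'
    · rw [h, hr]
    · rw [h', hr]
    · rfl
  have h3 : σ a ≠ σ b := fun h => hab (σ.injective h)
  simp only [Equiv.coe_mulRight, Subgroup.coe_mul, h1, h2, Perm.sign_mul, Perm.sign_swap h3]
  simp

lemma garnir (T : μ.cells → Fin n) (Z : Set μ.cells)
    (hZ : ∀ σ ∈ colGrp μ, ∃ a b, a ≠ b ∧ σ a ∈ Z ∧ σ b ∈ Z ∧ a.1.1 = b.1.1) :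
    bd ℤ T ∈ Submodule.span ℤ {x | ∃ π ∈ suppGrp Z, π ∉ colGrp μ ∧ x = bd ℤ (T ∘ π)} := by
  classical
  set H : Subgroup (suppGrp Z) := (colGrp μ).subgroupOf (suppGrp Z) with hH
  set φ : suppGrp Z → MvPolynomial (ℕ × Fin n) ℤ :=
    fun π => (Perm.sign π.1 : ℤ) • bd ℤ (T ∘ π.1) with hφ
  have hc : ∀ g, ∀ h ∈ H, φ (g * h) = φ g := by
    intro g h hh
    have hh' : h.1 ∈ colGrp μ := hh
    simp only [hφ, Subgroup.coe_mul, Perm.coe_mul, ← Function.comp_assoc, bd_comp _ hh',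
      Perm.sign_mul, smul_smul, Units.val_mul, mul_assoc]
    rw [← Units.val_mul (Perm.sign h.1), Int.units_mul_self]
    simp
  have h0 := garnir_full T Z hZ
  change ∑ π, φ π = 0 at h0
  rw [sum_coset H φ hc, nsmul_eq_mul, mul_eq_zero] at h0
  have hcard : (Nat.card H : MvPolynomial (ℕ × Fin n) ℤ) ≠ 0 := by
    exact_mod_cast Nat.card_pos.ne'
  have h1 := h0.resolve_left hcard
  rw [← Finset.add_sum_erase _ _ (Finset.mem_univ ((1 : suppGrp Z) : suppGrp Z ⧸ H))] at h1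
  have h2 : φ ((1 : suppGrp Z) : suppGrp Z ⧸ H).out = bd ℤ T := by
    obtain ⟨h, hh⟩ := QuotientGroup.mk_out_eq_mul H (1 : suppGrp Z)
    rw [hh, hc _ _ h.2]
    simp [hφ]
  rw [h2, add_eq_zero_iff_eq_neg] at h1
  rw [h1]
  refine Submodule.neg_mem _ (Submodule.sum_mem _ fun q hq => ?_)
  refine Submodule.smul_mem _ _ (Submodule.subset_span ⟨q.out.1, q.out.2, fun hm => ?_, rfl⟩)
  apply (Finset.mem_erase.1 hq).1
  have : q.out ∈ H := hm
  rw [← q.out_eq, QuotientGroup.eq]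
  simpa using this

end Pool.Agent.H328Z.Soc
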