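import Pool.Agent.H328Z.Soc.StrA

open MvPolynomial Equiv

namespace Pool.Agent.H328Z.Soc

variable {n : ℕ} {μ : YoungDiagram}

def m1 (T : μ.cells → Fin n) : ℤ := ∑ c, ((T c : ℕ) : ℤ) * (c.1.2 : ℤ)
def m2 (T : μ.cells → Fin n) : ℤ := ∑ c, ((T c : ℕ) : ℤ) * (c.1.1 : ℤ)

lemma m1_col (T : μ.cells → Fin n) {σ : Perm μ.cells} (hσ : σ ∈ colGrp μ) :
    m1 (T ∘ σ) = m1 T := by
  unfold m1
  rw [← Equiv.sum_comp σ (fun c => ((T c : ℕ) : ℤ) * (c.1.2 : ℤ))]
  simp only [Function.comp, hσ _]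

lemma m2_swap (T : μ.cells → Fin n) {c d : μ.cells} (h : c.1.1 < d.1.1) (hT : T d < T c) :
    m2 T < m2 (T ∘ swap c d) := by
  have hne : c ≠ d := fun e => by rw [e] at h; exact lt_irrefl _ h
  rw [← sub_pos, m2, m2, ← Finset.sum_sub_distrib, Fintype.sum_eq_add c d hne]
  · simp only [Function.comp, swap_apply_left, swap_apply_right]
    have h1 : ((T d : ℕ) : ℤ) < ((T c : ℕ) : ℤ) := by exact_mod_cast hT
    have h2 : (c.1.1 : ℤ) < (d.1.1 : ℤ) := by exact_mod_cast h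
    nlinarith
  · intro x hx
    simp [swap_apply_of_ne_of_ne hx.1 hx.2]

def gZ (c d : μ.cells) : Set μ.cells :=
  {x | (x.1.2 = c.1.2 ∧ c.1.1 ≤ x.1.1) ∨ (x.1.2 = d.1.2 ∧ x.1.1 ≤ c.1.1)}

lemma cell_mem (c : μ.cells) : (c.1.1, c.1.2) ∈ μ := (YoungDiagram.mem_cells _).1 c.2

lemma gZ_pigeon {c d : μ.cells} (hr : c.1.1 = d.1.1) (hc : c.1.2 < d.1.2) :
    ∀ σ ∈ colGrp μ, ∃ a b, a ≠ b ∧ σ a ∈ gZ c d ∧ σ b ∈ gZ c d ∧ a.1.1 = b.1.1 := by
  intro σ hσ
  set h := μ.colLen c.1.2 with hh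
  have hch : c.1.1 < h := YoungDiagram.mem_iff_lt_colLen.1 (cell_mem c)
  have hmem : ∀ r : Fin (h + 1),
      (if r.1 ≤ c.1.1 then (r.1, d.1.2) else (r.1 - 1, c.1.2)) ∈ μ.cells := by
    intro r
    rw [YoungDiagram.mem_cells]
    split_ifs with h1
    · exact μ.up_left_mem (hr ▸ h1) le_rfl (cell_mem d)
    · rw [YoungDiagram.mem_iff_lt_colLen]
      have := r.2
      omega
  let e : Fin (h + 1) → μ.cells := fun r => ⟨_, hmem r⟩
  have he : Function.Injective e := by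
    intro r s hrs
    have := congrArg Subtype.val hrs
    simp only [e] at this
    apply Fin.ext
    split_ifs at this with h1 h2 h2 <;> simp only [Prod.mk.injEq] at this <;> omega
  have heZ : ∀ r, e r ∈ gZ c d := by
    intro r
    simp only [gZ, e, Set.mem_ofPred_eq]
    split_ifs with h1
    · right; exact ⟨rfl, h1⟩
    · left; exact ⟨rfl, by simp only; omega⟩
  have hrow : ∀ r, (σ⁻¹ (e r)).1.1 < h := by
    intro r
    have h1 : (σ⁻¹ (e r)).1.2 = (e r).1.2 := (colGrp μ).inv_mem hσ _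
    have h2 := YoungDiagram.mem_iff_lt_colLen.1 (cell_mem (σ⁻¹ (e r)))
    rw [h1] at h2
    refine lt_of_lt_of_le h2 (μ.colLen_anti _ _ ?_)
    rcases heZ r with h3 | h3
    · exact h3.1.ge
    · rw [h3.1]; exact hc.le
  obtain ⟨r, s, hrs, hf⟩ := Fintype.exists_ne_map_eq_of_card_lt
    (fun r : Fin (h + 1) => (⟨_, hrow r⟩ : Fin h)) (by simp)
  refine ⟨σ⁻¹ (e r), σ⁻¹ (e s), fun h1 => hrs (he (σ⁻¹.injective h1)), ?_, ?_, ?_⟩
  · simpa using heZ r
  · simpa using heZ s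
  · exact congrArg Fin.val hf

lemma m1_garnir (T : μ.cells → Fin n)
    (hcol : ∀ c d : μ.cells, c.1.2 = d.1.2 → c.1.1 < d.1.1 → T c < T d)
    {c d : μ.cells} (hr : c.1.1 = d.1.1) (hc : c.1.2 < d.1.2) (hT : T d < T c)
    {π : Perm μ.cells} (hπ : π ∈ suppGrp (gZ c d)) (hπ' : π ∉ colGrp μ) :
    m1 T < m1 (T ∘ π) := by
  have hcolw : ∀ a b : μ.cells, a.1.2 = b.1.2 → a.1.1 ≤ b.1.1 → T a ≤ T b := by
    intro a b h1 h2
    rcases h2.lt_or_eq with h3 | h3
    · exact (hcol a b h1 h3).le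
    · rw [show a = b from Subtype.ext (Prod.ext h3 h1)]
  have hρ : π⁻¹ ∈ suppGrp (gZ c d) := (suppGrp _).inv_mem hπ
  have hρ' : π⁻¹ ∉ colGrp μ := fun h => hπ' ((colGrp μ).inv_mem_iff.1 h)
  set ρ := π⁻¹ with hρdef
  have e1 : m1 (T ∘ π) = ∑ y, ((T y : ℕ) : ℤ) * ((ρ y).1.2 : ℤ) := by
    unfold m1
    rw [← Equiv.sum_comp π (fun y => ((T y : ℕ) : ℤ) * ((ρ y).1.2 : ℤ))]
    simp [hρdef]
  have e2 : ∑ y, ((ρ y).1.2 : ℤ) = ∑ y : μ.cells, (y.1.2 : ℤ) :=
    Equiv.sum_comp ρ (fun y => (y.1.2 : ℤ))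
  have key : ∀ y, (ρ y).1.2 ≠ y.1.2 →
      0 < (2 * ((T y : ℕ) : ℤ) - 2 * ((T c : ℕ) : ℤ) + 1) * (((ρ y).1.2 : ℤ) - (y.1.2 : ℤ)) := by
    intro y hy
    have hyZ : y ∈ gZ c d := by
      by_contra h
      rw [hρ y h] at hy
      exact hy rfl
    have hρZ := suppGrp_mem hρ hyZ
    rcases hyZ with h1 | h1
    · have h2 : T c ≤ T y := hcolw c y h1.1.symm h1.2
      have h2' : ((T c : ℕ) : ℤ) ≤ ((T y : ℕ) : ℤ) := by exact_mod_cast h2
      have h3 : (y.1.2 : ℤ) < ((ρ y).1.2 : ℤ) := by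
        rcases hρZ with h4 | h4
        · exact absurd (h4.1.trans h1.1.symm) hy
        · rw [h4.1, h1.1]; exact_mod_cast hc
      apply mul_pos <;> omega
    · have h2 : T y ≤ T d := hcolw y d h1.1 (hr ▸ h1.2)
      have h2' : ((T y : ℕ) : ℤ) < ((T c : ℕ) : ℤ) := by exact_mod_cast h2.trans_lt hT
      have h3 : ((ρ y).1.2 : ℤ) < (y.1.2 : ℤ) := by
        rcases hρZ with h4 | h4
        · rw [h4.1, h1.1]; exact_mod_cast hc
        · exact absurd (h4.1.trans h1.1.symm) hy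
      apply mul_pos_of_neg_of_neg <;> omega
  have hpos : 0 < ∑ y, (2 * ((T y : ℕ) : ℤ) - 2 * ((T c : ℕ) : ℤ) + 1) *
      (((ρ y).1.2 : ℤ) - (y.1.2 : ℤ)) := by
    apply Finset.sum_pos'
    · intro y _
      by_cases hy : (ρ y).1.2 = y.1.2
      · simp [hy]
      · exact (key y hy).le
    · rw [mem_colGrp, not_forall] at hρ'
      obtain ⟨y, hy⟩ := hρ'
      exact ⟨y, Finset.mem_univ _, key y hy⟩
  have e3 : ∑ y, (2 * ((T y : ℕ) : ℤ) - 2 * ((T c : ℕ) : ℤ) + 1) *
      (((ρ y).1.2 : ℤ) - (y.1.2 : ℤ)) = 2 * (m1 (T ∘ π) - m1 T) +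
        (1 - 2 * ((T c : ℕ) : ℤ)) * (∑ y, ((ρ y).1.2 : ℤ) - ∑ y : μ.cells, (y.1.2 : ℤ)) := by
    rw [e1, m1, ← Finset.sum_sub_distrib, ← Finset.sum_sub_distrib, Finset.mul_sum,
      Finset.mul_sum, ← Finset.sum_add_distrib]
    exact Finset.sum_congr rfl fun y _ => by ring
  rw [e3, e2, sub_self, mul_zero, add_zero] at hpos
  omega

noncomputable def sp (T : μ.cells → Fin n) : Submodule ℤ (MvPolynomial (ℕ × Fin n) ℤ) :=
  Submodule.span ℤ {x | ∃ U, IsSSYT U ∧ (∃ π : Perm μ.cells, U = T ∘ π) ∧ x = bd ℤ U}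

lemma sp_le (T : μ.cells → Fin n) (π : Perm μ.cells) : sp (T ∘ π) ≤ sp T := by
  apply Submodule.span_mono
  rintro x ⟨U, h1, ⟨τ, rfl⟩, rfl⟩
  exact ⟨_, h1, ⟨π * τ, rfl⟩, rfl⟩

theorem straighten (T : μ.cells → Fin n) : bd ℤ T ∈ sp T := by
  let f : (μ.cells → Fin n) → ℤ ×ₗ ℤ := fun T => toLex (m1 T, m2 T)
  let r : (μ.cells → Fin n) → (μ.cells → Fin n) → Prop := fun T' T => f T < f T'
  have : IsTrans _ r := ⟨fun a b c h1 h2 => lt_trans h2 h1⟩
  have : Std.Irrefl r := ⟨fun a => lt_irrefl _⟩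
  have wf : WellFounded r := Finite.wellFounded_of_trans_of_irrefl r
  induction T using wf.induction with
  | _ T ih =>
  by_cases hcol : ∀ c d : μ.cells, c.1.2 = d.1.2 → c.1.1 < d.1.1 → T c < T d
  · by_cases hrow : ∀ c d : μ.cells, c.1.1 = d.1.1 → c.1.2 < d.1.2 → T c ≤ T d
    · exact Submodule.subset_span ⟨T, ⟨hrow, hcol⟩, ⟨1, rfl⟩, rfl⟩
    · push Not at hrow
      obtain ⟨c, d, hr, hc, hT⟩ := hrow
      refine (Submodule.span_le.2 ?_ : _ ≤ sp T) (garnir T (gZ c d) (gZ_pigeon hr hc))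
      rintro x ⟨π, hπ, hπ', rfl⟩
      refine sp_le T π (ih _ ?_)
      exact Prod.Lex.toLex_lt_toLex.2 (Or.inl (m1_garnir T hcol hr hc hT hπ hπ'))
  · push Not at hcol
    obtain ⟨c, d, hc, hr, hT⟩ := hcol
    have hne : c ≠ d := fun e => by rw [e] at hr; exact lt_irrefl _ hr
    have hs : swap c d ∈ colGrp μ := by
      intro x
      rw [swap_apply_def]
      split_ifs with h h'
      · rw [h, hc]
      · rw [h', hc]
      · rfl
    have hb := bd_comp (R := ℤ) T hs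
    rw [Perm.sign_swap hne] at hb
    simp only [Units.val_neg, Units.val_one, neg_smul, one_smul] at hb
    rcases hT.lt_or_eq with h | h
    · have : bd ℤ T = - bd ℤ (T ∘ swap c d) := by rw [hb, neg_neg]
      rw [this]
      refine Submodule.neg_mem _ (sp_le T _ (ih _ ?_))
      exact Prod.Lex.toLex_lt_toLex.2 (Or.inr ⟨(m1_col T hs).symm, m2_swap T hr h⟩)
    · have : T ∘ swap c d = T := by
        funext x
        simp only [Function.comp]
        rw [swap_apply_def]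
        split_ifs with h1 h2
        · rw [h1, h]
        · rw [h2, h]
        · rfl
      rw [this] at hb
      rw [eq_zero_of_eq_neg hb]
      exact Submodule.zero_mem _

/-! Linear independence -/

lemma sum_eq_of_ex_eq {T T' : μ.cells → Fin n} (h : ex T = ex T') (φ : ℕ × Fin n → ℕ) :
    ∑ c, φ (c.1.1, T c) = ∑ c, φ (c.1.1, T' c) := by
  have : ∀ T : μ.cells → Fin n, Finsupp.weight φ (ex T) = ∑ c, φ (c.1.1, T c) := by
    intro T
    simp [ex, map_sum, Finsupp.weight_single]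
  rw [← this, ← this, h]

def key (T : μ.cells → Fin n) : Lex (ℕ → ℕ) :=
  toLex fun a => ∑ c : μ.cells, if c.1.1 = a then (T c : ℕ) else 0

lemma key_eq_of_ex_eq {T T' : μ.cells → Fin n} (h : ex T = ex T') : key T = key T' := by
  unfold key
  congr 1
  funext a
  exact sum_eq_of_ex_eq h (fun x => if x.1 = a then (x.2 : ℕ) else 0)

lemma key_lt {U : μ.cells → Fin n} (hU : IsSSYT U) {σ : Perm μ.cells} (hσ : σ ∈ colGrp μ)
    (h1 : σ ≠ 1) : key U < key (U ∘ σ) := by
  classical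
  have hex : ∃ a, ∃ c : μ.cells, c.1.1 = a ∧ σ c ≠ c := by
    by_contra h
    push Not at h
    exact h1 (Equiv.ext fun c => h _ c rfl)
  set a := Nat.find hex with ha
  obtain ⟨c0, hc0, hc0'⟩ := Nat.find_spec hex
  have hmin : ∀ c : μ.cells, c.1.1 < a → σ c = c := by
    intro c hc
    have := Nat.find_min hex hc
    push Not at this
    exact this c rfl
  have hlt : ∀ c : μ.cells, c.1.1 = a → σ c ≠ c → U c < U (σ c) := by
    intro c hc hne
    apply hU.2 _ _ (hσ c).symm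
    rcases lt_trichotomy c.1.1 (σ c).1.1 with h | h | h
    · exact h
    · exact absurd (Subtype.ext (Prod.ext h.symm (hσ c))) hne
    · exact absurd (σ.injective (hmin _ (hc ▸ h))) hne
  refine ⟨a, fun b hb => ?_, ?_⟩
  · refine Finset.sum_congr rfl fun c _ => ?_
    split_ifs with h
    · simp [hmin c (h ▸ hb)]
    · rfl
  · refine Finset.sum_lt_sum (fun c _ => ?_) ⟨c0, Finset.mem_univ _, ?_⟩
    · split_ifs with h
      · by_cases h2 : σ c = c
        · simp [h2]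
        · exact (hlt c h h2).le
      · exact le_rfl
    · rw [if_pos hc0, if_pos hc0]
      exact hlt c0 hc0 hc0'

lemma eq_of_ex_eq {U U' : μ.cells → Fin n} (hU : IsSSYT U) (hU' : IsSSYT U')
    (h : ex U = ex U') : U = U' := by
  classical
  have main : ∀ {U U' : μ.cells → Fin n}, IsSSYT U → IsSSYT U' → ex U = ex U' →
      ∀ c, ¬ U c < U' c := by
    intro U U' hU hU' h c hlt
    have h1 := sum_eq_of_ex_eq h (fun x => if x.1 = c.1.1 ∧ x.2 ≤ U c then 1 else 0)
    refine absurd h1 (ne_of_gt ?_)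
    refine Finset.sum_lt_sum (fun x _ => ?_) ⟨c, Finset.mem_univ _, ?_⟩
    · by_cases h2 : x.1.1 = c.1.1 ∧ U' x ≤ U c
      · have h3 : x.1.2 < c.1.2 := by
          rcases lt_trichotomy x.1.2 c.1.2 with h4 | h4 | h4
          · exact h4
          · rw [show x = c from Subtype.ext (Prod.ext h2.1 h4)] at h2
            exact absurd h2.2 hlt.not_ge
          · exact absurd ((hU'.1 c x h2.1.symm h4).trans h2.2) hlt.not_ge
        rw [if_pos h2, if_pos ⟨h2.1, hU.1 x c h2.1 h3⟩]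
      · rw [if_neg h2]
        exact Nat.zero_le _
    · simp [hlt.not_ge]
  funext c
  exact le_antisymm (not_lt.1 (main hU' hU h.symm c)) (not_lt.1 (main hU hU' h c))

variable {R : Type*} [CommRing R]

lemma coeff_bd {U U' : μ.cells → Fin n} (hU : IsSSYT U) (hU' : IsSSYT U')
    (h : key U ≤ key U') : coeff (ex U) (bd R U') = if U' = U then 1 else 0 := by
  classical
  unfold bd
  rw [coeff_sum, Finset.sum_eq_single 1]
  · simp only [Perm.sign_one, Units.val_one, one_smul, Perm.coe_one, Function.comp_id, mono_eq,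
      coeff_monomial]
    by_cases h1 : U' = U
    · simp [h1]
    · rw [if_neg h1, if_neg (fun h2 => h1 (eq_of_ex_eq hU' hU h2))]
  · intro σ hσ h1
    rw [mono_eq, coeff_smul, coeff_monomial, if_neg, smul_zero]
    intro h2
    have := key_lt hU' (mem_colFin.1 hσ) h1
    rw [key_eq_of_ex_eq h2] at this
    exact absurd h this.not_ge
  · intro h1
    exact absurd (mem_colFin.2 (colGrp μ).one_mem) h1

/-- index type of semistandard tableaux -/
abbrev Tab (μ : YoungDiagram) (n : ℕ) := {T : μ.cells → Fin n // IsSSYT T}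

noncomputable instance (μ : YoungDiagram) (n : ℕ) : Fintype (Tab μ n) := Fintype.ofFinite _

noncomputable instance (μ : YoungDiagram) (n : ℕ) : DecidableEq (Tab μ n) := Classical.decEq _

theorem bd_indep (g : Tab μ n → R) (h : ∑ U, g U • bd R U.1 = 0) (U : Tab μ n) : g U = 0 := by
  classical
  by_contra h0
  obtain ⟨V, hV, hmin⟩ := Finset.exists_min_image (Finset.univ.filter fun U => g U ≠ 0)
    (fun U => key U.1) ⟨U, by simpa using h0⟩
  have h1 := congrArg (coeff (ex V.1)) h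
  rw [coeff_sum, coeff_zero, Finset.sum_eq_single V] at h1
  · rw [coeff_smul, coeff_bd V.2 V.2 le_rfl] at h1
    simp only [if_true, smul_eq_mul, mul_one] at h1
    exact (Finset.mem_filter.1 hV).2 h1
  · intro W _ hW
    by_cases h2 : g W = 0
    · simp [h2]
    · rw [coeff_smul, coeff_bd V.2 W.2 (hmin W (by simpa using h2)),
        if_neg (fun e => hW (Subtype.ext e)), smul_zero]
  · simp

lemma exists_sc (W : μ.cells → Fin n) : ∃ c : Tab μ n → ℤ,
    (∀ U, c U ≠ 0 → ∃ π : Perm μ.cells, U.1 = W ∘ π) ∧ bd ℤ W = ∑ U, c U • bd ℤ U.1 := by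
  classical
  have h := straighten W
  unfold sp at h
  generalize bd ℤ W = y at h ⊢
  induction h using Submodule.span_induction with
  | mem x hx =>
    obtain ⟨U, hU, hπ, rfl⟩ := hx
    refine ⟨Pi.single ⟨U, hU⟩ 1, fun V hV => ?_, ?_⟩
    · by_cases e : V = ⟨U, hU⟩
      · rw [e]; exact hπ
      · simp [e] at hV
    · rw [Finset.sum_eq_single ⟨U, hU⟩]
      · simp
      · intro V _ e
        simp [e]
      · simp
  | zero => exact ⟨0, by simp, by simp⟩
  | add x y _ _ hx hy =>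
    obtain ⟨c, h1, h2⟩ := hx
    obtain ⟨d, h3, h4⟩ := hy
    refine ⟨c + d, fun V hV => ?_, ?_⟩
    · by_cases e : c V = 0
      · exact h3 V (by simpa [e] using hV)
      · exact h1 V e
    · simp [h2, h4, add_smul, Finset.sum_add_distrib]
  | smul a x _ hx =>
    obtain ⟨c, h1, h2⟩ := hx
    refine ⟨a • c, fun V hV => h1 V (fun e => hV (by simp [e])), ?_⟩
    rw [h2, Finset.smul_sum]
    exact Finset.sum_congr rfl fun U _ => by rw [Pi.smul_apply, smul_eq_mul, mul_smul]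

/-- straightening coefficients -/
noncomputable def sc (U : Tab μ n) (W : μ.cells → Fin n) : ℤ := (exists_sc W).choose U

lemma sc_ne_zero {U : Tab μ n} {W : μ.cells → Fin n} (h : sc U W ≠ 0) :
    ∃ π : Perm μ.cells, U.1 = W ∘ π := (exists_sc W).choose_spec.1 U h

lemma bd_eq_sum (W : μ.cells → Fin n) : bd R W = ∑ U : Tab μ n, sc U W • bd R U.1 := by
  have h := congrArg (MvPolynomial.map (Int.castRingHom R)) (exists_sc W).choose_spec.2
  rw [map_bd, map_sum] at h
  rw [h]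
  exact Finset.sum_congr rfl fun U _ => by rw [map_zsmul, map_bd]; rfl

/-- the matrix of the Schur functor in the basis of semistandard tableaux -/
noncomputable def rho (μ : YoungDiagram) (M : Matrix (Fin n) (Fin n) R) :
    Matrix (Tab μ n) (Tab μ n) R :=
  Matrix.of fun U T => ∑ W : μ.cells → Fin n, (sc U W : R) * ∏ c, M (W c) (T.1 c)

lemma multiAct_bd_rho (M : Matrix (Fin n) (Fin n) R) (T : Tab μ n) :
    multiAct M (bd R T.1) = ∑ U, rho μ M U T • bd R U.1 := by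
  rw [multiAct_bd]
  simp only [rho, Matrix.of_apply, Finset.sum_smul]
  rw [Finset.sum_comm]
  refine Finset.sum_congr rfl fun W _ => ?_
  rw [bd_eq_sum W, Finset.smul_sum]
  refine Finset.sum_congr rfl fun U _ => ?_
  rw [mul_comm, mul_smul, Int.cast_smul_eq_zsmul]

lemma rho_ext {M : Matrix (Fin n) (Fin n) R} {P : Matrix (Tab μ n) (Tab μ n) R}
    (h : ∀ T, multiAct M (bd R T.1) = ∑ U, P U T • bd R U.1) : rho μ M = P := by
  ext U T
  have := bd_indep (fun U => rho μ M U T - P U T) (by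
    simp only [sub_smul, Finset.sum_sub_distrib]
    rw [← multiAct_bd_rho, h, sub_self]) U
  exact sub_eq_zero.1 this

lemma rho_mul (M N : Matrix (Fin n) (Fin n) R) : rho μ (M * N) = rho μ M * rho μ N := by
  apply rho_ext
  intro T
  rw [multiAct_mul, AlgHom.comp_apply, multiAct_bd_rho, map_sum]
  simp only [map_smul, multiAct_bd_rho, Matrix.mul_apply, Finset.sum_smul, Finset.smul_sum,
    smul_smul]
  rw [Finset.sum_comm]
  simp only [mul_comm]

lemma rho_diagonal (t : Fin n → R) :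
    rho μ (Matrix.diagonal t) = Matrix.diagonal fun U => ∏ c, t (U.1 c) := by
  apply rho_ext
  intro T
  rw [multiAct_bd, Finset.sum_eq_single T.1, Finset.sum_eq_single T]
  · simp
  · intro U _ h
    simp [Matrix.diagonal_apply_ne _ h]
  · simp
  · intro W _ hW
    obtain ⟨c, hc⟩ := Function.ne_iff.1 hW
    have h0 : ∏ c, Matrix.diagonal t (W c) (T.1 c) = 0 :=
      Finset.prod_eq_zero (Finset.mem_univ c) (Matrix.diagonal_apply_ne _ hc)
    rw [h0, zero_smul]
  · simp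

lemma rho_smul_one (r : R) :
    rho μ (r • (1 : Matrix (Fin n) (Fin n) R)) = r ^ μ.card • (1 : Matrix (Tab μ n) _ R) := by
  rw [Matrix.smul_one_eq_diagonal, Matrix.smul_one_eq_diagonal, rho_diagonal]
  simp [YoungDiagram.card]

lemma rho_map {R' : Type*} [CommRing R'] (φ : R →+* R') (M : Matrix (Fin n) (Fin n) R) :
    rho μ (M.map φ) = (rho μ M).map φ := by
  ext U T
  simp [rho, map_sum, map_prod]

end Pool.Agent.H328Z.Soc
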